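import Pool.Agent.H82R3.EK.FF

/-!
Number of points on `y² = x³ + a x + b` over finite extensions of a finite field of odd
characteristic: `q^n - #{(x,y)} = α^n + β^n` with `α + β = a_q`, `α β = q` (helper165).
-/

set_option autoImplicit false

namespace W165.CE

open Polynomial Finset
open Pool.Agent.H341R2.Sharp
open Pool.Agent.H82R3.EK (luc luc_eq sum_Mon_two card_points sum_qc_sub)

section
variable {F : Type*} [Field F] [Fintype F] [DecidableEq F]

/-- `∑ η(y² - Δ) = -1` for `Δ ≠ 0` -/
lemma sum_sq_sub (hF : ringChar F ≠ 2) (D : F) (hD : D ≠ 0) :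
    ∑ y : F, quadraticChar F (y ^ 2 - D) = -1 := by
  have h1 := card_points hF (fun y : F => y ^ 2 - D)
  have h2 : (2 : F) ≠ 0 := Ring.two_ne_zero hF
  have e : {x : F × F // x.2 ^ 2 = x.1 ^ 2 - D} ≃ Fˣ :=
    { toFun := fun x => Units.mk0 (x.1.1 + x.1.2) (by
        intro h
        apply hD
        have := x.2
        linear_combination (x.1.1 - x.1.2) * h + this)
      invFun := fun u => ⟨((u + D * (u : F)⁻¹) / 2, (u - D * (u : F)⁻¹) / 2), by
        have hu : (u : F) ≠ 0 := u.ne_zero
        show ((u - D * (u : F)⁻¹) / 2) ^ 2 = ((u + D * (u : F)⁻¹) / 2) ^ 2 - D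
        field_simp
        ring⟩
      left_inv := by
        rintro ⟨⟨x, y⟩, h⟩
        simp only at h
        have hxy : x + y ≠ 0 := by
          intro h0
          apply hD
          linear_combination (x - y) * h0 + h
        have e1 : D * (x + y)⁻¹ = x - y := by
          rw [← div_eq_mul_inv, div_eq_iff hxy]
          linear_combination h
        ext
        · show ((x + y) + D * (x + y)⁻¹) / 2 = x
          rw [e1]; field_simp; ring
        · show ((x + y) - D * (x + y)⁻¹) / 2 = y
          rw [e1]; field_simp; ring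
      right_inv := by
        intro u
        ext
        show ((u : F) + D * (u : F)⁻¹) / 2 + ((u : F) - D * (u : F)⁻¹) / 2 = u
        field_simp
        ring }
  rw [Nat.card_congr e, Nat.card_eq_fintype_card, Fintype.card_units] at h1
  have h3 : 1 ≤ Fintype.card F := Fintype.card_pos
  push_cast [Nat.cast_sub h3] at h1
  linarith

/-- `∑ η(α y² + β y + γ)` -/
lemma sum_quad (hF : ringChar F ≠ 2) (α β γ : F) (hα : α ≠ 0) :
    ∑ y : F, quadraticChar F (α * y ^ 2 + β * y + γ) =
      quadraticChar F α * (if β ^ 2 - 4 * α * γ = 0 then (Fintype.card F : ℤ) - 1 else -1) := by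
  have h2 : (2 : F) ≠ 0 := Ring.two_ne_zero hF
  have h2α : (2 * α) ≠ 0 := mul_ne_zero h2 hα
  have hsq : quadraticChar F α * quadraticChar F α = 1 := by
    rw [← sq]; exact quadraticChar_sq_one hα
  have h1 : ∀ y : F, quadraticChar F (α * y ^ 2 + β * y + γ) =
      quadraticChar F α * quadraticChar F ((2 * α * y + β) ^ 2 - (β ^ 2 - 4 * α * γ)) := by
    intro y
    have e1 : (2 * α * y + β) ^ 2 - (β ^ 2 - 4 * α * γ) = 2 ^ 2 * (α * (α * y ^ 2 + β * y + γ)) := by
      ring
    rw [e1, map_mul, quadraticChar_sq_one' h2, one_mul, map_mul, ← mul_assoc, hsq, one_mul]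
  simp_rw [h1, ← Finset.mul_sum]
  congr 1
  have h3 : ∑ y : F, quadraticChar F ((2 * α * y + β) ^ 2 - (β ^ 2 - 4 * α * γ)) =
      ∑ y : F, quadraticChar F (y ^ 2 - (β ^ 2 - 4 * α * γ)) :=
    Fintype.sum_equiv ((Equiv.mulLeft₀ (2 * α) h2α).trans (Equiv.addRight β)) _ _ (fun y => rfl)
  rw [h3]
  split_ifs with h
  · rw [h]
    have : ∀ y : F, quadraticChar F (y ^ 2 - 0) = 1 - (if y = 0 then 1 else 0) := by
      intro y
      rw [sub_zero]
      split_ifs with hy
      · rw [hy]; simp
      · rw [quadraticChar_sq_one' hy]; simp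
    simp_rw [this]
    rw [Finset.sum_sub_distrib]
    simp
  · exact sum_sq_sub hF _ h

lemma coeff_two_q (b c : F) : (X ^ 2 + C b * X + C c : F[X]).coeff 2 = 1 := by
  simp [coeff_X, coeff_C]

lemma natDegree_q (b c : F) : (X ^ 2 + C b * X + C c : F[X]).natDegree = 2 := by
  have := natDegree_quadratic (R := F) (a := 1) (b := b) (c := c) one_ne_zero
  rwa [C_1, one_mul] at this

/-- resultant of a monic quadratic and a linear polynomial -/
lemma res_lin (b c α β : F) :
    resultant (X ^ 2 + C b * X + C c) (C α * X + C β) 2 1 = β ^ 2 - α * β * b + α ^ 2 * c := by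
  rcases eq_or_ne α 0 with h | h
  · rw [h, map_zero, zero_mul, zero_add, resultant_C_right, coeff_two_q]
    ring
  · have e : (C α * X + C β : F[X]) = C α * (X + C (β / α)) := by
      rw [mul_add, ← C_mul, mul_div_cancel₀ _ h]
    rw [e, resultant_C_mul_right, resultant_X_add_C_right _ _ _ (natDegree_q b c).le]
    simp only [eval_add, eval_mul, eval_pow, eval_X, eval_C]
    field_simp
    ring

/-- resultant of two monic quadratics -/
lemma res_quad (b c A B : F) :
    resultant (X ^ 2 + C b * X + C c) (X ^ 2 + C A * X + C B) 2 2 =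
      (c - B) ^ 2 - (A - b) * (b * B - A * c) := by
  have e : (X ^ 2 + C A * X + C B : F[X]) = (C (A - b) * X + C (B - c)) +
      (X ^ 2 + C b * X + C c) * 1 := by
    rw [C_sub, C_sub]; ring
  rw [e, resultant_add_mul_right _ _ _ _ _ (by simp) (natDegree_q b c).le,
    resultant_add_right_deg _ _ 2 1 1 natDegree_linear_le, coeff_two_q, res_lin]
  ring

lemma q_natDegree (e A B : F) : ((X - C e) * (X ^ 2 + C A * X + C B) : F[X]).natDegree = 3 := by
  rw [natDegree_mul (X_sub_C_ne_zero e) (by
    intro h; have := natDegree_q A B; rw [h, natDegree_zero] at this; omega), natDegree_X_sub_C,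
    natDegree_q]

lemma lam_split (e A B b c : F) :
    lam ((X - C e) * (X ^ 2 + C A * X + C B)) (X ^ 2 + C b * X + C c) =
      quadraticChar F ((e ^ 2 + b * e + c) * ((c - B) ^ 2 - (A - b) * (b * B - A * c))) := by
  unfold lam
  rw [q_natDegree, natDegree_q]
  have h1 := resultant_mul_right (X ^ 2 + C b * X + C c : F[X]) (X - C e) (X ^ 2 + C A * X + C B) 2
    (natDegree_q b c).le
  rw [natDegree_X_sub_C, natDegree_q] at h1
  have h2 : resultant (X ^ 2 + C b * X + C c) ((X - C e) * (X ^ 2 + C A * X + C B)) 2 3 =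
    resultant (X ^ 2 + C b * X + C c) ((X - C e) * (X ^ 2 + C A * X + C B)) 2 (1 + 2) := rfl
  rw [h2, h1, resultant_X_sub_C_right _ _ _ (natDegree_q b c).le, res_quad]
  congr 1
  simp only [eval_add, eval_mul, eval_pow, eval_X, eval_C]
  ring

lemma A_two_split (hF : ringChar F ≠ 2) (e A B : F) (h1 : e ^ 2 + A * e + B ≠ 0)
    (h2 : A ^ 2 - 4 * B ≠ 0) :
    Pool.Agent.H341R2.Sharp.A ((X - C e) * (X ^ 2 + C A * X + C B)) 2 = Fintype.card F := by
  unfold Pool.Agent.H341R2.Sharp.A
  rw [sum_Mon_two]
  simp_rw [lam_split]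
  set A' := A + 2 * e with hA'
  set B' := e ^ 2 + A * e + B with hB'
  have e1 : ∑ c : F, ∑ b : F, quadraticChar F
      ((e ^ 2 + b * e + c) * ((c - B) ^ 2 - (A - b) * (b * B - A * c))) =
      ∑ c : F, ∑ b : F, quadraticChar F (c * (B' * b ^ 2 + (-(A' * (B' + c))) * b +
        ((c - B') ^ 2 + A' ^ 2 * c))) := by
    rw [← Finset.sum_product' (s := univ) (t := univ), ← Finset.sum_product' (s := univ) (t := univ)]
    refine Finset.sum_bij' (fun (x : F × F) _ => (x.1 + e * x.2 + e ^ 2, x.2 + 2 * e))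
      (fun (x : F × F) _ => (x.1 - e * x.2 + e ^ 2, x.2 - 2 * e)) ?_ ?_ ?_ ?_ ?_
    · intro x _; simp
    · intro x _; simp
    · rintro ⟨c, b⟩ _
      ext
      · show c + e * b + e ^ 2 - e * (b + 2 * e) + e ^ 2 = c
        ring
      · show b + 2 * e - 2 * e = b
        ring
    · rintro ⟨c, b⟩ _
      ext
      · show c - e * b + e ^ 2 + e * (b - 2 * e) + e ^ 2 = c
        ring
      · show b - 2 * e + 2 * e = b
        ring
    · rintro ⟨c, b⟩ _
      simp only
      congr 1
      rw [hA', hB']
      ring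
  rw [e1]
  have hsq : quadraticChar F B' * quadraticChar F B' = 1 := by
    rw [← sq]; exact quadraticChar_sq_one h1
  have e2 : ∀ c : F, ∑ b : F, quadraticChar F (c * (B' * b ^ 2 + (-(A' * (B' + c))) * b +
        ((c - B') ^ 2 + A' ^ 2 * c))) =
      - quadraticChar F B' * quadraticChar F c + if c = B' then (Fintype.card F : ℤ) else 0 := by
    intro c
    have e3 : ∀ b : F, quadraticChar F (c * (B' * b ^ 2 + (-(A' * (B' + c))) * b +
        ((c - B') ^ 2 + A' ^ 2 * c))) = quadraticChar F c * quadraticChar F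
          (B' * b ^ 2 + (-(A' * (B' + c))) * b + ((c - B') ^ 2 + A' ^ 2 * c)) := fun b => map_mul _ _ _
    simp_rw [e3, ← Finset.mul_sum]
    rw [sum_quad hF _ _ _ h1]
    have e4 : (-(A' * (B' + c))) ^ 2 - 4 * B' * ((c - B') ^ 2 + A' ^ 2 * c) =
        (A ^ 2 - 4 * B) * (c - B') ^ 2 := by
      rw [hA', hB']; ring
    rw [e4]
    by_cases hc : c = B'
    · rw [if_pos hc, if_pos (by rw [hc]; ring), hc]
      linear_combination (Fintype.card F : ℤ) * hsq
    · rw [if_neg hc, if_neg (mul_ne_zero h2 (pow_ne_zero 2 (sub_ne_zero.mpr hc)))]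
      ring
  simp_rw [e2]
  rw [Finset.sum_add_distrib, ← Finset.mul_sum, quadraticChar_sum_zero hF]
  simp

/-- a cubic is not a constant times a square -/
lemma cubic_nsq {g : F[X]} (hg : g.natDegree = 3) (c : F) (h : F[X]) : g ≠ C c * h ^ 2 := by
  intro he
  have h1 := congrArg natDegree he
  rw [hg] at h1
  have hc : c ≠ 0 := by
    rintro rfl
    rw [map_zero, zero_mul, natDegree_zero] at h1
    omega
  rw [natDegree_C_mul hc, natDegree_pow] at h1
  omega

lemma A_high (hF : ringChar F ≠ 2) {g : F[X]} (hg : g.natDegree = 3) (hm : g.Monic) (n : ℕ)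
    (hn : 3 ≤ n) : A g n = 0 := by
  obtain ⟨r, hr, hl⟩ := exists_r hF hm (by rw [hg]; norm_num) (cubic_nsq hg)
  exact A_eq_zero g r hm hr hl n (by rw [hg]; exact hn)

lemma T_luc (hF : ringChar F ≠ 2) {g : F[X]} (hg : g.natDegree = 3) (hm : g.Monic) : ∀ n : ℕ,
    T g (n + 1) = - luc (- T g 1) (A g 2) (n + 1)
  | 0 => by simp [luc]
  | 1 => by
    have h1 := n_mul_A g 1
    have h2 := n_mul_A g 2
    rw [Finset.sum_Icc_succ_top (by norm_num), Finset.Icc_self, Finset.sum_singleton] at h2
    rw [Finset.Icc_self, Finset.sum_singleton] at h1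
    norm_num [A_zero] at h1 h2
    rw [h1] at h2
    simp only [luc]
    linear_combination -h2
  | n + 2 => by
    have h1 := n_mul_A g 1
    rw [Finset.Icc_self, Finset.sum_singleton] at h1
    norm_num [A_zero] at h1
    have h2 := n_mul_A g (n + 3)
    rw [A_high hF hg hm _ (by omega), mul_zero] at h2
    have h3 : ∑ m ∈ Icc 1 (n + 3), A g (n + 3 - m) * T g m =
        A g 0 * T g (n + 3) + A g 1 * T g (n + 2) + A g 2 * T g (n + 1) := by
      rw [Finset.sum_Icc_succ_top (by omega), Finset.sum_Icc_succ_top (by omega),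
        Finset.sum_Icc_succ_top (by omega)]
      have h4 : ∑ m ∈ Icc 1 n, A g (n + 3 - m) * T g m = 0 := by
        apply Finset.sum_eq_zero
        intro m hm'
        rw [mem_Icc] at hm'
        rw [A_high hF hg hm _ (by omega), zero_mul]
      rw [h4]
      have e1 : n + 3 - (n + 1) = 2 := by omega
      have e2 : n + 3 - (n + 1 + 1) = 1 := by omega
      have e3 : n + 3 - (n + 2 + 1) = 0 := by omega
      rw [e1, e2, e3]
      ring
    rw [h3, A_zero, h1, T_luc hF hg hm n, T_luc hF hg hm (n + 1)] at h2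
    have e : luc (- T g 1) (A g 2) (n + 3) = (- T g 1) * luc (- T g 1) (A g 2) (n + 2) -
      (A g 2) * luc (- T g 1) (A g 2) (n + 1) := rfl
    show T g (n + 3) = - luc (- T g 1) (A g 2) (n + 3)
    rw [e]
    linear_combination -h2

/-- the cubic `X³ + a X + b` -/
noncomputable def wei (a b : F) : F[X] := X ^ 3 + C a * X + C b

lemma wei_natDegree (a b : F) : (wei a b).natDegree = 3 := by
  have := natDegree_cubic (R := F) (a := 1) (b := 0) (c := a) (d := b) one_ne_zero
  unfold wei
  rwa [C_1, one_mul, map_zero, zero_mul, add_zero] at this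

lemma wei_monic (a b : F) : (wei a b).Monic := by
  unfold wei
  rw [add_assoc]
  refine monic_X_pow_add (n := 3) ?_
  refine lt_of_le_of_lt degree_linear_le ?_
  norm_num

omit [Fintype F] [DecidableEq F] in
lemma eval₂_wei {S : Type*} [CommRing S] (φ : F →+* S) (a b : F) (x : S) :
    eval₂ φ x (wei a b) = x ^ 3 + φ a * x + φ b := by
  unfold wei
  simp only [eval₂_add, eval₂_mul, eval₂_pow, eval₂_X, eval₂_C]

omit [Fintype F] [DecidableEq F] in
lemma aeval_wei {S : Type*} [CommRing S] [Algebra F S] (a b : F) (x : S) :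
    aeval x (wei a b) = x ^ 3 + algebraMap F S a * x + algebraMap F S b := by
  rw [aeval_def, eval₂_wei]

/-- if there is a root -/
lemma A_two_root (hF : ringChar F ≠ 2) (a b e : F) (he : e ^ 3 + a * e + b = 0)
    (hD : 4 * a ^ 3 + 27 * b ^ 2 ≠ 0) : A (wei a b) 2 = Fintype.card F := by
  have hb : b = -e ^ 3 - a * e := by linear_combination he
  have h1 : wei a b = (X - C e) * (X ^ 2 + C e * X + C (a + e ^ 2)) := by
    unfold wei
    rw [hb]
    simp only [C_sub, C_neg, C_mul, C_add, C_pow]
    ring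
  have h2 : 4 * a ^ 3 + 27 * b ^ 2 = (e ^ 2 + e * e + (a + e ^ 2)) ^ 2 * -(e ^ 2 - 4 * (a + e ^ 2)) := by
    rw [hb]; ring
  rw [h2] at hD
  have h3 := left_ne_zero_of_mul hD
  have h4 := right_ne_zero_of_mul hD
  rw [h1]
  exact A_two_split hF e e (a + e ^ 2) (fun h => h3 (by rw [h]; ring)) (fun h => h4 (by rw [h]; ring))

end

/-- the general case -/
theorem A_two {F : Type} [Field F] [Fintype F] [DecidableEq F] (hF : ringChar F ≠ 2) (a b : F)
    (hD : 4 * a ^ 3 + 27 * b ^ 2 ≠ 0) : A (wei a b) 2 = Fintype.card F := by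
  classical
  by_cases hroot : ∃ e : F, e ^ 3 + a * e + b = 0
  · obtain ⟨e, he⟩ := hroot
    exact A_two_root hF a b e he hD
  · push Not at hroot
    have hir : Irreducible (wei a b) := by
      refine (irreducible_iff_roots_eq_zero_of_degree_le_three (by rw [wei_natDegree]; norm_num)
        (by rw [wei_natDegree])).2 ?_
      rw [Multiset.eq_zero_iff_forall_notMem]
      intro e he
      rw [mem_roots (wei_monic a b).ne_zero, IsRoot.def] at he
      apply hroot e
      rw [← he]
      unfold wei
      simp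
    haveI : Fact (Irreducible (wei a b)) := ⟨hir⟩
    let E := AdjoinRoot (wei a b)
    have hfr : Module.finrank F E = 3 := by
      have := (AdjoinRoot.powerBasis hir.ne_zero).finrank
      rw [this, AdjoinRoot.powerBasis_dim, wei_natDegree]
    haveI : Module.Finite F E := Module.finite_of_finrank_pos (by rw [hfr]; norm_num)
    haveI : Finite E := Module.finite_of_finite F
    letI : Fintype E := Fintype.ofFinite E
    have hE : ringChar E ≠ 2 := by
      rwa [← Algebra.ringChar_eq F E]
    set a' : E := algebraMap F E a with ha'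
    set b' : E := algebraMap F E b with hb'
    have hD' : 4 * a' ^ 3 + 27 * b' ^ 2 ≠ 0 := by
      intro h
      apply hD
      apply (algebraMap F E).injective
      rw [map_zero, ← h]
      simp only [ha', hb', map_add, map_mul, map_pow, map_ofNat]
    have hAE : A (wei a' b') 2 = Fintype.card E := by
      refine A_two_root hE a' b' (AdjoinRoot.root (wei a b)) ?_ hD'
      have h1 := AdjoinRoot.eval₂_root (wei a b)
      rw [eval₂_wei] at h1
      exact h1
    -- the extension of degree two of `E`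
    obtain ⟨p, hp⟩ := CharP.exists E
    haveI : Fact (Nat.Prime p) := ⟨CharP.char_is_prime E p⟩
    let E2 := FiniteField.Extension E p 2
    letI : Fintype E2 := Fintype.ofFinite E2
    have hfr2 : Module.finrank E E2 = 2 := FiniteField.finrank_extension E p 2
    letI : Algebra F E2 := ((algebraMap E E2).comp (algebraMap F E)).toAlgebra
    haveI : IsScalarTower F E E2 := IsScalarTower.of_algebraMap_eq' rfl
    have hfr6 : Module.finrank F E2 = 6 := by
      rw [← Module.finrank_mul_finrank F E E2, hfr, hfr2]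
    -- comparison
    have t1 : T (wei a' b') 1 = T (wei a b) 3 := by
      have h1 := T_eq_sum (E := E) hE (wei a' b')
      rw [Module.finrank_self] at h1
      have h2 := T_eq_sum (E := E) hF (wei a b)
      rw [hfr] at h2
      rw [h1, h2]
      refine Finset.sum_congr rfl fun x _ => ?_
      rw [aeval_wei, aeval_wei, Algebra.algebraMap_self, RingHom.id_apply, RingHom.id_apply]
    have t2 : T (wei a' b') 2 = T (wei a b) 6 := by
      have h1 := T_eq_sum (E := E2) hE (wei a' b')
      rw [hfr2] at h1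
      have h2 := T_eq_sum (E := E2) hF (wei a b)
      rw [hfr6] at h2
      rw [h1, h2]
      refine Finset.sum_congr rfl fun x _ => ?_
      rw [aeval_wei, aeval_wei, ha', hb', ← IsScalarTower.algebraMap_apply,
        ← IsScalarTower.algebraMap_apply]
    have l2 := T_luc hE (wei_natDegree a' b') (wei_monic a' b') 1
    have l3 := T_luc hF (wei_natDegree a b) (wei_monic a b) 2
    have l6 := T_luc hF (wei_natDegree a b) (wei_monic a b) 5
    norm_num at l2 l3 l6
    rw [t1, t2, hAE, l3, l6] at l2
    simp only [luc] at l2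
    have hcard : (Fintype.card E : ℤ) = (Fintype.card F : ℤ) ^ 3 := by
      have := Module.card_eq_pow_finrank (K := F) (V := E)
      rw [hfr] at this
      exact_mod_cast this
    rw [hcard] at l2
    have hcube : (A (wei a b) 2) ^ 3 = (Fintype.card F : ℤ) ^ 3 := by
      have h2 : 2 * (A (wei a b) 2) ^ 3 = 2 * (Fintype.card F : ℤ) ^ 3 := by
        linear_combination l2
      exact mul_left_cancel₀ two_ne_zero h2
    exact (Odd.strictMono_pow (by decide : Odd 3)).injective hcube

/-- the number of points over an extension of the prime field -/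
theorem points_ext {p : ℕ} [Fact p.Prime] (hp2 : p ≠ 2) (a b : ℤ)
    (hD : ¬ (p : ℤ) ∣ 4 * a ^ 3 + 27 * b ^ 2) {k : Type} [Field k] [Fintype k] [Algebra (ZMod p) k] :
    (Fintype.card k : ℤ) - Nat.card {x : k × k // x.2 ^ 2 = x.1 ^ 3 + (a : k) * x.1 + (b : k)} =
      luc ((p : ℤ) - Nat.card {x : ZMod p × ZMod p //
        x.2 ^ 2 = x.1 ^ 3 + (a : ZMod p) * x.1 + (b : ZMod p)}) p (Module.finrank (ZMod p) k) := by
  classical
  have hF : ringChar (ZMod p) ≠ 2 := by
    rw [ZMod.ringChar_zmod_n]; exact hp2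
  have hd : 4 * (a : ZMod p) ^ 3 + 27 * (b : ZMod p) ^ 2 ≠ 0 := by
    intro h
    apply hD
    rw [← ZMod.intCast_zmod_eq_zero_iff_dvd]
    push_cast
    exact h
  have key : ∀ {E : Type} [Field E] [Fintype E] [Algebra (ZMod p) E] [DecidableEq E],
      (Fintype.card E : ℤ) - Nat.card {x : E × E // x.2 ^ 2 = x.1 ^ 3 + (a : E) * x.1 + (b : E)} =
      - T (wei (a : ZMod p) (b : ZMod p)) (Module.finrank (ZMod p) E) := by
    intro E _ _ _ _
    have hE : ringChar E ≠ 2 := by
      rwa [← Algebra.ringChar_eq (ZMod p) E]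
    rw [card_points hE (fun x => x ^ 3 + (a : E) * x + (b : E)), T_eq_sum (E := E) hF]
    have : ∀ x : E, aeval x (wei (a : ZMod p) (b : ZMod p)) = x ^ 3 + (a : E) * x + (b : E) := by
      intro x
      rw [aeval_wei, map_intCast, map_intCast]
    simp_rw [this]
    ring
  have h1 := key (E := ZMod p)
  rw [Module.finrank_self, ZMod.card] at h1
  rw [key (E := k), h1]
  have hpos : 0 < Module.finrank (ZMod p) k := Module.finrank_pos
  obtain ⟨n, hn⟩ := Nat.exists_eq_succ_of_ne_zero hpos.ne'
  rw [hn, Nat.succ_eq_add_one, T_luc hF (wei_natDegree _ _) (wei_monic _ _) n,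
    A_two hF _ _ hd, ZMod.card]
  ring

/-- Hasse's bound -/
theorem hasse {k : Type*} [Field k] [Fintype k] [DecidableEq k] (hk : ringChar k ≠ 2) (a b : k) :
    |((Fintype.card k : ℤ) - Nat.card {x : k × k // x.2 ^ 2 = x.1 ^ 3 + a * x.1 + b} : ℝ)| ≤
      2 * Real.sqrt (Fintype.card k) := by
  have h4 := Pool.Agent.H341R2.Sharp.weil_sharp_monic hk (wei_monic a b)
    (by rw [wei_natDegree]; norm_num) (cubic_nsq (wei_natDegree a b))
  rw [wei_natDegree] at h4
  have h5 : ∀ x : k, (wei a b).eval x = x ^ 3 + a * x + b := by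
    intro x
    unfold wei
    simp only [eval_add, eval_mul, eval_pow, eval_X, eval_C]
  simp_rw [h5] at h4
  have h6 := congrArg (fun z : ℤ => (z : ℝ)) (card_points hk (fun x : k => x ^ 3 + a * x + b))
  push_cast at h6
  push_cast
  rw [h6, show (Fintype.card k : ℝ) - (Fintype.card k +
    ∑ x : k, (quadraticChar k (x ^ 3 + a * x + b) : ℝ)) =
    - ∑ x : k, (quadraticChar k (x ^ 3 + a * x + b) : ℝ) by ring, abs_neg]
  refine h4.trans (le_of_eq ?_)
  norm_num

end W165.CE
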