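import Pool.Agent.H82R3.EK.Main
import Pool.Agent.W165.CE.FF

/-!
The Euler product of an elliptic curve `y² = x³ + a x + b` over the cyclotomic field of level `q`
(helper165; adapted from `Pool.Agent.H82R3.EK.Local` and `Pool.Agent.H82R3.EK.Euler`).
-/

set_option autoImplicit false

namespace W165.CE

open NumberField IsDedekindDomain Filter
open Pool.Agent.H921R2.TatePole
open Pool.Agent.H82R3.EK (luc luc_eq card_points deg_and_count prod_char prod_prim natCast_mem_iff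
  nm_cpow prime_cpow pow_cpow)

/-! ### power sums of two roots -/

/-- `pw t u n = α ^ n + β ^ n` for the roots `α`, `β` of `X² - t X + u` -/
noncomputable def pw (t u : ℂ) : ℕ → ℂ
  | 0 => 2
  | 1 => t
  | n + 2 => t * pw t u (n + 1) - u * pw t u n

lemma pw_eq {t u α β : ℂ} (h1 : α + β = t) (h2 : α * β = u) : ∀ n : ℕ, pw t u n = α ^ n + β ^ n
  | 0 => by simp [pw]; norm_num
  | 1 => by simp [pw, h1]
  | n + 2 => by
    rw [pw, pw_eq h1 h2 (n + 1), pw_eq h1 h2 n, ← h1, ← h2]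
    ring

lemma pw_luc (t u : ℤ) : ∀ n : ℕ, pw (t : ℂ) (u : ℂ) n = ((luc t u n : ℤ) : ℂ)
  | 0 => by simp [pw, luc]
  | 1 => by simp [pw, luc]
  | n + 2 => by
    rw [pw, luc, pw_luc t u (n + 1), pw_luc t u n]
    push_cast
    ring

/-! ### products over characters -/

lemma prod_char' (m : ℕ) [NeZero m] (a : ZMod m) (ha : IsUnit a) (Y : ℂ) :
    ∏ χ : DirichletCharacter ℂ m, (1 - χ a * Y) =
      (1 - Y ^ orderOf a) ^ (Nat.totient m / orderOf a) := by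
  classical
  have h : (∏ χ : DirichletCharacter ℂ m, (1 - Polynomial.C (χ a) * Polynomial.X) :
      Polynomial ℂ) = (1 - Polynomial.X ^ orderOf a) ^ (Nat.totient m / orderOf a) := by
    apply Polynomial.eq_of_infinite_eval_eq
    refine Set.Infinite.mono (s := Metric.ball (0 : ℂ) 1) ?_
      (infinite_of_mem_nhds (0 : ℂ) (Metric.ball_mem_nhds _ one_pos))
    intro Z hZ
    rw [mem_ball_zero_iff] at hZ
    show Polynomial.eval Z _ = Polynomial.eval Z _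
    rw [Polynomial.eval_prod]
    simp only [Polynomial.eval_sub, Polynomial.eval_one, Polynomial.eval_mul, Polynomial.eval_C,
      Polynomial.eval_X, Polynomial.eval_pow]
    exact prod_char m a ha Z hZ
  have h2 := congrArg (Polynomial.eval Y) h
  rw [Polynomial.eval_prod] at h2
  simpa only [Polynomial.eval_sub, Polynomial.eval_one, Polynomial.eval_mul, Polynomial.eval_C,
      Polynomial.eval_X, Polynomial.eval_pow] using h2

lemma exists_roots' (t u : ℂ) : ∃ α β : ℂ, α + β = t ∧ α * β = u := by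
  obtain ⟨z, hz⟩ := IsAlgClosed.exists_pow_nat_eq (t ^ 2 - 4 * u) (n := 2) (by norm_num)
  refine ⟨(t + z) / 2, (t - z) / 2, by ring, ?_⟩
  linear_combination -(1 / 4 : ℂ) * hz

lemma prod_quad' (m : ℕ) [NeZero m] (c : ZMod m) (hc : IsUnit c) (t u X : ℂ) :
    ∏ χ : DirichletCharacter ℂ m, (1 - χ c * t * X + χ c ^ 2 * (u * X ^ 2)) =
      (1 - pw t u (orderOf c) * X ^ orderOf c + u ^ orderOf c * X ^ (2 * orderOf c)) ^
        (Nat.totient m / orderOf c) := by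
  obtain ⟨α, β, h1, h2⟩ := exists_roots' t u
  have e1 : ∀ χ : DirichletCharacter ℂ m, (1 - χ c * t * X + χ c ^ 2 * (u * X ^ 2)) =
      (1 - χ c * (α * X)) * (1 - χ c * (β * X)) := by
    intro χ
    rw [← h1, ← h2]; ring
  simp_rw [e1]
  rw [Finset.prod_mul_distrib, prod_char' m c hc, prod_char' m c hc, ← mul_pow,
    pw_eq h1 h2, ← h2]
  congr 1
  rw [mul_pow, mul_pow, mul_pow, pow_mul']
  ring

/-! ### the local factor -/

section
variable {K : Type} [Field K] [NumberField K]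

/-- `Nv` minus the number of affine points of `y² = x³ + a x + b` over the residue field of `v` -/
noncomputable def av (a b : ℤ) (v : HeightOneSpectrum (𝓞 K)) : ℤ :=
  ((Ideal.absNorm v.asIdeal : ℕ) : ℤ) -
    ((Nat.card {x : (𝓞 K ⧸ v.asIdeal) × (𝓞 K ⧸ v.asIdeal) //
      x.2 ^ 2 = x.1 ^ 3 + (a : 𝓞 K ⧸ v.asIdeal) * x.1 + (b : 𝓞 K ⧸ v.asIdeal)} : ℕ) : ℤ)

open Classical in
/-- the local factor at `v` -/
noncomputable def fac (a b : ℤ) (N : ℕ) (c : ℕ → ℂ) (s : ℂ) (v : HeightOneSpectrum (𝓞 K)) : ℂ :=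
  if ((2 * (4 * a ^ 3 + 27 * b ^ 2) : ℤ) : 𝓞 K) ∈ v.asIdeal then
    (1 - pw (c (Ideal.absNorm v.asIdeal).minFac)
          (if (Ideal.absNorm v.asIdeal).minFac ∣ N then 0 else ((Ideal.absNorm v.asIdeal).minFac : ℂ))
          ((Ideal.absNorm v.asIdeal).factorization (Ideal.absNorm v.asIdeal).minFac)
          * ((Ideal.absNorm v.asIdeal : ℕ) : ℂ) ^ (-s)
      + (if (Ideal.absNorm v.asIdeal).minFac ∣ N then (0 : ℂ) else
          ((Ideal.absNorm v.asIdeal : ℕ) : ℂ) ^ (1 - 2 * s)))⁻¹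
  else
    (1 - ((av a b v : ℤ) : ℂ) * ((Ideal.absNorm v.asIdeal : ℕ) : ℂ) ^ (-s)
      + ((Ideal.absNorm v.asIdeal : ℕ) : ℂ) ^ (1 - 2 * s))⁻¹

lemma intCast_mem_iff (v : HeightOneSpectrum (𝓞 K)) (n : ℤ) :
    ((n : ℤ) : 𝓞 K) ∈ v.asIdeal ↔ ((below v : ℕ) : ℤ) ∣ n := by
  rw [Int.natCast_dvd, ← natCast_mem_iff]
  rcases Int.natAbs_eq n with h | h
  · conv_lhs => rw [h]
    rw [Int.cast_natCast]
  · conv_lhs => rw [h]
    rw [Int.cast_neg, Int.cast_natCast, neg_mem_iff]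

/-- the coefficient at a prime `p` -/
noncomputable def ap0 (a b : ℤ) (p : ℕ) : ℤ :=
  (p : ℤ) - Nat.card {x : ZMod p × ZMod p // x.2 ^ 2 = x.1 ^ 3 + (a : ZMod p) * x.1 + (b : ZMod p)}

/-- good places -/
lemma trace_good {a b : ℤ} (v : HeightOneSpectrum (𝓞 K))
    (hv : ¬ ((below v : ℕ) : ℤ) ∣ 2 * (4 * a ^ 3 + 27 * b ^ 2)) :
    av a b v = luc (ap0 a b (below v)) (below v : ℕ) (deg v) := by
  have hmax : v.asIdeal.IsMaximal := v.isPrime.isMaximal v.ne_bot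
  letI : Field (𝓞 K ⧸ v.asIdeal) := Ideal.Quotient.field v.asIdeal
  have : Finite (𝓞 K ⧸ v.asIdeal) := Ideal.finiteQuotientOfFreeOfNeBot v.asIdeal v.ne_bot
  letI : Fintype (𝓞 K ⧸ v.asIdeal) := Fintype.ofFinite _
  obtain ⟨h1, h2, h3⟩ := nm_eq v
  have : Fact (below v : ℕ).Prime := ⟨(below v).2⟩
  have : CharP (𝓞 K ⧸ v.asIdeal) (below v : ℕ) := by
    have : ringChar (𝓞 K ⧸ v.asIdeal) = (below v : ℕ) := by
      apply CharP.ringChar_of_prime_eq_zero (below v).2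
      have := Ideal.Quotient.eq_zero_iff_mem.2 h3
      simpa using this
    rw [← this]; infer_instance
  letI : Algebra (ZMod (below v : ℕ)) (𝓞 K ⧸ v.asIdeal) := ZMod.algebra _ _
  have hp2 : (below v : ℕ) ≠ 2 := by
    intro h; apply hv; rw [h]; exact dvd_mul_right 2 _
  have hpD : ¬ ((below v : ℕ) : ℤ) ∣ 4 * a ^ 3 + 27 * b ^ 2 := fun h => hv (h.mul_left 2)
  have hcard : Ideal.absNorm v.asIdeal = Fintype.card (𝓞 K ⧸ v.asIdeal) := by
    rw [Ideal.absNorm_apply, Submodule.cardQuot_apply, Nat.card_eq_fintype_card]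
  have key := points_ext hp2 a b hpD (k := 𝓞 K ⧸ v.asIdeal)
  have hfin : Module.finrank (ZMod (below v : ℕ)) (𝓞 K ⧸ v.asIdeal) = deg v := by
    have h4 := Module.card_eq_pow_finrank (K := ZMod (below v : ℕ)) (V := 𝓞 K ⧸ v.asIdeal)
    rw [ZMod.card, ← hcard] at h4
    have h5 : (below v : ℕ) ^ (Module.finrank (ZMod (below v : ℕ)) (𝓞 K ⧸ v.asIdeal)) =
        (below v : ℕ) ^ deg v := by
      rw [← h4, ← h1]; rfl
    exact Nat.pow_right_injective (below v).2.two_le h5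
  unfold av ap0
  rw [hcard, ← hfin]
  exact key

/-- Hasse's bound at the good places -/
lemma trace_bound {a b : ℤ} (v : HeightOneSpectrum (𝓞 K))
    (hv : ¬ ((below v : ℕ) : ℤ) ∣ 2 * (4 * a ^ 3 + 27 * b ^ 2)) :
    |((av a b v : ℤ) : ℝ)| ≤ 2 * Real.sqrt (nm v) := by
  classical
  have hmax : v.asIdeal.IsMaximal := v.isPrime.isMaximal v.ne_bot
  letI : Field (𝓞 K ⧸ v.asIdeal) := Ideal.Quotient.field v.asIdeal
  have : Finite (𝓞 K ⧸ v.asIdeal) := Ideal.finiteQuotientOfFreeOfNeBot v.asIdeal v.ne_bot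
  letI : Fintype (𝓞 K ⧸ v.asIdeal) := Fintype.ofFinite _
  obtain ⟨h1, h2, h3⟩ := nm_eq v
  have hring : ringChar (𝓞 K ⧸ v.asIdeal) = (below v : ℕ) := by
    apply CharP.ringChar_of_prime_eq_zero (below v).2
    have := Ideal.Quotient.eq_zero_iff_mem.2 h3
    simpa using this
  have hp2 : (below v : ℕ) ≠ 2 := by
    intro h; apply hv; rw [h]; exact dvd_mul_right 2 _
  have hE : ringChar (𝓞 K ⧸ v.asIdeal) ≠ 2 := by rw [hring]; exact hp2
  have hcard : Ideal.absNorm v.asIdeal = Fintype.card (𝓞 K ⧸ v.asIdeal) := by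
    rw [Ideal.absNorm_apply, Submodule.cardQuot_apply, Nat.card_eq_fintype_card]
  have h4 := hasse hE (a : 𝓞 K ⧸ v.asIdeal) (b : 𝓞 K ⧸ v.asIdeal)
  unfold av nm
  rw [hcard]
  push_cast at h4 ⊢
  exact h4

open Classical in
/-- the factor in terms of the prime below -/
lemma fac_eq {a b : ℤ} {N : ℕ} {c : ℕ → ℂ}
    (H : ∀ p : ℕ, p.Prime → ¬ (p : ℤ) ∣ 2 * (4 * a ^ 3 + 27 * b ^ 2) →
      ¬ p ∣ N ∧ c p = ((ap0 a b p : ℤ) : ℂ))
    (v : HeightOneSpectrum (𝓞 K)) (s : ℂ) :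
    fac a b N c s v = (1 - pw (c (below v)) (if (below v : ℕ) ∣ N then 0 else ((below v : ℕ) : ℂ))
        (deg v) * (((below v : ℕ) : ℂ) ^ (-s)) ^ deg v +
      (if (below v : ℕ) ∣ N then 0 else ((below v : ℕ) : ℂ)) ^ deg v *
        (((below v : ℕ) : ℂ) ^ (-s)) ^ (2 * deg v))⁻¹ := by
  have hdeg : deg v ≠ 0 := (nm_eq v).2.1.ne'
  have hpc : ((Ideal.absNorm v.asIdeal : ℕ) : ℂ) ^ (1 - 2 * s) =
      (((below v : ℕ) : ℂ)) ^ deg v * (((below v : ℕ) : ℂ) ^ (-s)) ^ (2 * deg v) := by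
    rw [nm_cpow, prime_cpow _ (below v).2.ne_zero, mul_pow, ← pow_mul]
  have hb : (Ideal.absNorm v.asIdeal).minFac = (below v : ℕ) := rfl
  have hd : (Ideal.absNorm v.asIdeal).factorization (Ideal.absNorm v.asIdeal).minFac = deg v := rfl
  unfold fac
  rw [hd, hb, intCast_mem_iff]
  by_cases h1 : ((below v : ℕ) : ℤ) ∣ 2 * (4 * a ^ 3 + 27 * b ^ 2)
  · rw [if_pos h1]
    by_cases h2 : (below v : ℕ) ∣ N
    · rw [if_pos h2, if_pos h2, nm_cpow, zero_pow hdeg, zero_mul]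
    · rw [if_neg h2, if_neg h2, hpc, nm_cpow]
  · rw [if_neg h1]
    obtain ⟨h3, h4⟩ := H _ (below v).2 h1
    rw [if_neg h3, trace_good v h1, ← pw_luc, h4, hpc, nm_cpow]
    push_cast
    rfl

/-- the part of the factor different from one -/
lemma fac_sub_bound {a b : ℤ} {N : ℕ} {c : ℕ → ℂ} (v : HeightOneSpectrum (𝓞 K))
    (hv : ¬ ((below v : ℕ) : ℤ) ∣ 2 * (4 * a ^ 3 + 27 * b ^ 2)) (s : ℂ) (hs : 3 / 2 < s.re)
    (hsmall : (nm v : ℝ) ^ (-(s.re - 1 / 2)) ≤ 1 / 6) :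
    ‖fac a b N c s v - 1‖ ≤ 6 * (nm v : ℝ) ^ (-(s.re - 1 / 2)) := by
  have hn0 : (0 : ℝ) < nm v := by
    have := two_le_nm v
    exact_mod_cast (by omega : 0 < nm v)
  have hn1 : (1 : ℝ) ≤ nm v := by
    have := two_le_nm v
    exact_mod_cast (by omega : 1 ≤ nm v)
  have hb := trace_bound v hv
  unfold fac
  rw [if_neg (fun h => hv ((intCast_mem_iff v _).1 h))]
  set t : ℤ := av a b v with ht
  set w : ℝ := (nm v : ℝ) ^ (-(s.re - 1 / 2)) with hw
  have e1 : ‖((Ideal.absNorm v.asIdeal : ℕ) : ℂ) ^ (-s)‖ = (nm v : ℝ) ^ (-s.re) := by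
    have := Complex.norm_natCast_cpow_of_pos (n := nm v) (by exact_mod_cast hn0) (-s)
    rw [Complex.neg_re] at this
    exact this
  have e2 : ‖((Ideal.absNorm v.asIdeal : ℕ) : ℂ) ^ (1 - 2 * s)‖ = (nm v : ℝ) ^ (1 - 2 * s.re) := by
    have := Complex.norm_natCast_cpow_of_pos (n := nm v) (by exact_mod_cast hn0) (1 - 2 * s)
    have h2 : (1 - 2 * s).re = 1 - 2 * s.re := by simp
    rw [h2] at this
    exact this
  set u : ℂ := -((t : ℂ) * ((Ideal.absNorm v.asIdeal : ℕ) : ℂ) ^ (-s)) +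
    ((Ideal.absNorm v.asIdeal : ℕ) : ℂ) ^ (1 - 2 * s) with hu
  have hu1 : ‖u‖ ≤ 3 * w := by
    have h1 : ‖(t : ℂ) * ((Ideal.absNorm v.asIdeal : ℕ) : ℂ) ^ (-s)‖ ≤ 2 * w := by
      rw [norm_mul, e1, Complex.norm_intCast]
      calc |(t : ℝ)| * (nm v : ℝ) ^ (-s.re) ≤ (2 * Real.sqrt (nm v)) * (nm v : ℝ) ^ (-s.re) :=
            mul_le_mul_of_nonneg_right hb (by positivity)
        _ = 2 * w := by
            rw [hw, Real.sqrt_eq_rpow, mul_assoc, ← Real.rpow_add hn0]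
            congr 2
            ring
    have h2 : ‖((Ideal.absNorm v.asIdeal : ℕ) : ℂ) ^ (1 - 2 * s)‖ ≤ w := by
      rw [e2, hw]
      apply Real.rpow_le_rpow_of_exponent_le hn1
      linarith
    calc ‖u‖ ≤ ‖-((t : ℂ) * ((Ideal.absNorm v.asIdeal : ℕ) : ℂ) ^ (-s))‖ + _ := norm_add_le _ _
      _ ≤ 2 * w + w := add_le_add (by rwa [norm_neg]) h2
      _ = 3 * w := by ring
  have e3 : (1 - (t : ℂ) * ((Ideal.absNorm v.asIdeal : ℕ) : ℂ) ^ (-s) +
    ((Ideal.absNorm v.asIdeal : ℕ) : ℂ) ^ (1 - 2 * s)) = 1 + u := by rw [hu]; ring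
  rw [e3]
  have hu2 : ‖u‖ ≤ 1 / 2 := by linarith
  have h3 : 1 / 2 ≤ ‖1 + u‖ := by
    have := norm_sub_norm_le (1 : ℂ) (-u)
    rw [sub_neg_eq_add, norm_neg, norm_one] at this
    linarith
  have hne : 1 + u ≠ 0 := by
    intro h
    rw [h, norm_zero] at h3
    linarith
  have e4 : (1 + u)⁻¹ - 1 = -u / (1 + u) := by field_simp; ring
  rw [e4, norm_div, norm_neg, div_le_iff₀ (by linarith)]
  nlinarith [norm_nonneg u]

/-- only finitely many places divide a nonzero integer -/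
lemma finite_bad (n : ℤ) (hn : n ≠ 0) :
    {v : HeightOneSpectrum (𝓞 K) | ((below v : ℕ) : ℤ) ∣ n}.Finite := by
  have h1 : {p : Nat.Primes | ((p : ℕ) : ℤ) ∣ n}.Finite := by
    refine Set.Finite.of_finite_image (f := fun p : Nat.Primes => (p : ℕ)) ?_
      (fun a _ b _ h => Subtype.ext h)
    refine (n.natAbs.primeFactors.finite_toSet).subset ?_
    rintro _ ⟨p, hp, rfl⟩
    rw [Set.mem_setOf_eq, Int.natCast_dvd] at hp
    exact Nat.mem_primeFactors.2 ⟨p.2, hp, Int.natAbs_ne_zero.2 hn⟩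
  have h2 : {v : HeightOneSpectrum (𝓞 K) | ((below v : ℕ) : ℤ) ∣ n} =
      ⋃ p ∈ {p : Nat.Primes | ((p : ℕ) : ℤ) ∣ n}, {v : HeightOneSpectrum (𝓞 K) | below v = p} := by
    ext v
    simp
  rw [h2]
  exact h1.biUnion fun p _ => Set.finite_coe_iff.1 (fiber_finite p)

lemma multipliable_fac {a b : ℤ} {N : ℕ} {c : ℕ → ℂ} (hE : 4 * a ^ 3 + 27 * b ^ 2 ≠ 0) (s : ℂ)
    (hs : 3 / 2 < s.re) : Multipliable (fac (K := K) a b N c s) := by
  have hsum := nm_summable (K := K) (x := s.re - 1 / 2) (by linarith)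
  have h1 : Summable (fun v : HeightOneSpectrum (𝓞 K) => ‖fac a b N c s v - 1‖) := by
    refine Summable.of_norm_bounded_eventually (hsum.mul_left 6) ?_
    have h2 := hsum.tendsto_cofinite_zero.eventually (Iio_mem_nhds (by norm_num : (0 : ℝ) < 1 / 6))
    have h3 : ∀ᶠ v : HeightOneSpectrum (𝓞 K) in cofinite,
        ¬ ((below v : ℕ) : ℤ) ∣ 2 * (4 * a ^ 3 + 27 * b ^ 2) := by
      rw [Filter.eventually_cofinite]
      simp only [not_not]
      exact finite_bad _ (mul_ne_zero two_ne_zero hE)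
    filter_upwards [h2, h3] with v hv hv3
    rw [norm_norm]
    exact fac_sub_bound v hv3 s hs (le_of_lt hv)
  have h2 := multipliable_one_add_of_summable h1
  refine h2.congr (fun v => ?_)
  ring

open Classical in
variable (K) in
/-- product over the places above `p` -/
lemma fiber_prod {a b : ℤ} {N : ℕ} {c : ℕ → ℂ}
    (H : ∀ p : ℕ, p.Prime → ¬ (p : ℤ) ∣ 2 * (4 * a ^ 3 + 27 * b ^ 2) →
      ¬ p ∣ N ∧ c p = ((ap0 a b p : ℤ) : ℂ))
    (q : ℕ) [NeZero q] [IsCyclotomicExtension {q} ℚ K] (p : Nat.Primes)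
    (m k : ℕ) [NeZero m] (hq : q = (p : ℕ) ^ k * m) (hm : ¬ (p : ℕ) ∣ m) (s : ℂ) :
    ∏ v : {v : HeightOneSpectrum (𝓞 K) // below v = p}, fac a b N c s v.1 =
      ((1 - pw (c p) (if (p : ℕ) ∣ N then 0 else ((p : ℕ) : ℂ)) (orderOf ((p : ℕ) : ZMod m)) *
        (((p : ℕ) : ℂ) ^ (-s)) ^ orderOf ((p : ℕ) : ZMod m) +
        (if (p : ℕ) ∣ N then 0 else ((p : ℕ) : ℂ)) ^ orderOf ((p : ℕ) : ZMod m) *
          (((p : ℕ) : ℂ) ^ (-s)) ^ (2 * orderOf ((p : ℕ) : ZMod m))) ^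
          (Nat.totient m / orderOf ((p : ℕ) : ZMod m)))⁻¹ := by
  obtain ⟨h1, h2⟩ := deg_and_count K q p m k hq hm
  have h3 : ∀ v : {v : HeightOneSpectrum (𝓞 K) // below v = p}, fac a b N c s v.1 =
      (1 - pw (c p) (if (p : ℕ) ∣ N then 0 else ((p : ℕ) : ℂ)) (orderOf ((p : ℕ) : ZMod m)) *
        (((p : ℕ) : ℂ) ^ (-s)) ^ orderOf ((p : ℕ) : ZMod m) +
        (if (p : ℕ) ∣ N then 0 else ((p : ℕ) : ℂ)) ^ orderOf ((p : ℕ) : ZMod m) *
          (((p : ℕ) : ℂ) ^ (-s)) ^ (2 * orderOf ((p : ℕ) : ZMod m)))⁻¹ := by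
    rintro ⟨v, hv⟩
    have h4 := h1 v hv
    subst hv
    rw [fac_eq H v, h4]
  rw [Finset.prod_congr rfl (fun v _ => h3 v), Finset.prod_const, Finset.card_univ, h2, inv_pow]

end

open Classical in
/-- the Euler factor of the twist by a Dirichlet character -/
noncomputable def eul (N : ℕ) (c : ℕ → ℂ) (q : ℕ) (χ : DirichletCharacter ℂ q) (s : ℂ) (p : ℕ) : ℂ :=
  (1 - χ ((p : ℕ) : ZMod q) * c p * (p : ℂ) ^ (-s) +
    χ ((p : ℕ) : ZMod q) ^ 2 * ((if p ∣ N then 0 else (p : ℂ)) * ((p : ℂ) ^ (-s)) ^ 2))⁻¹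

open Classical in
/-- product over the characters -/
lemma char_prod (N : ℕ) (c : ℕ → ℂ) (q : ℕ) [NeZero q] (p : ℕ) (hpp : p.Prime)
    (m k : ℕ) [NeZero m] (hq : q = p ^ k * m) (hm : ¬ p ∣ m) (s : ℂ) :
    ∏ χ : DirichletCharacter ℂ q, eul N c χ.conductor χ.primitiveCharacter s p =
      ((1 - pw (c p) (if p ∣ N then 0 else (p : ℂ)) (orderOf ((p : ℕ) : ZMod m)) *
        (((p : ℕ) : ℂ) ^ (-s)) ^ orderOf ((p : ℕ) : ZMod m) +
        (if p ∣ N then 0 else (p : ℂ)) ^ orderOf ((p : ℕ) : ZMod m) *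
          (((p : ℕ) : ℂ) ^ (-s)) ^ (2 * orderOf ((p : ℕ) : ZMod m))) ^
          (Nat.totient m / orderOf ((p : ℕ) : ZMod m)))⁻¹ := by
  have h1 : ∀ χ : DirichletCharacter ℂ q, eul N c χ.conductor χ.primitiveCharacter s p =
      (fun z : ℂ => (1 - z * c p * (p : ℂ) ^ (-s) +
        z ^ 2 * ((if p ∣ N then 0 else (p : ℂ)) * ((p : ℂ) ^ (-s)) ^ 2))⁻¹)
        (χ.primitiveCharacter ((p : ℕ) : ZMod χ.conductor)) := fun χ => rfl
  simp_rw [h1]
  rw [prod_prim p hpp q m k hq hm (fun z : ℂ => (1 - z * c p * (p : ℂ) ^ (-s) +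
        z ^ 2 * ((if p ∣ N then 0 else (p : ℂ)) * ((p : ℂ) ^ (-s)) ^ 2))⁻¹) (by simp)]
  have hu : IsUnit ((p : ℕ) : ZMod m) :=
    (ZMod.isUnit_iff_coprime p m).2 ((Nat.Prime.coprime_iff_not_dvd hpp).2 hm)
  rw [Finset.prod_inv_distrib, prod_quad' m ((p : ℕ) : ZMod m) hu]

/-- the Euler product -/
theorem hasProd_euler {a b : ℤ} (hE : 4 * a ^ 3 + 27 * b ^ 2 ≠ 0) {N : ℕ} {c : ℕ → ℂ}
    (H : ∀ p : ℕ, p.Prime → ¬ (p : ℤ) ∣ 2 * (4 * a ^ 3 + 27 * b ^ 2) →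
      ¬ p ∣ N ∧ c p = ((ap0 a b p : ℤ) : ℂ))
    (L : (q : ℕ) → DirichletCharacter ℂ q → ℂ → ℂ)
    (hL : ∀ (q : ℕ) (χ : DirichletCharacter ℂ q), 1 ≤ q → Nat.Coprime q N → χ.IsPrimitive →
        ∀ s : ℂ, 3 / 2 < s.re → HasProd (fun p : Nat.Primes => eul N c q χ s p) (L q χ s))
    (q : ℕ) [NeZero q] (hq : Nat.Coprime q N) (K : Type) [Field K] [NumberField K]
    [IsCyclotomicExtension {q} ℚ K] (s : ℂ) (hs : 3 / 2 < s.re) :
    HasProd (fac (K := K) a b N c s)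
      (∏ χ : DirichletCharacter ℂ q, L χ.conductor χ.primitiveCharacter s) := by
  have h1 : HasProd (fun p : Nat.Primes => ∏ χ : DirichletCharacter ℂ q,
      eul N c χ.conductor χ.primitiveCharacter s p)
      (∏ χ : DirichletCharacter ℂ q, L χ.conductor χ.primitiveCharacter s) := by
    apply hasProd_prod
    intro χ _
    exact hL χ.conductor χ.primitiveCharacter (Nat.one_le_iff_ne_zero.2 χ.conductor_ne_zero)
      (Nat.Coprime.coprime_dvd_left χ.conductor_dvd_level hq) χ.primitiveCharacter_isPrimitive _ hs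
  have h2 : ∀ p : Nat.Primes, ∏ χ : DirichletCharacter ℂ q,
      eul N c χ.conductor χ.primitiveCharacter s p =
      ∏ v : {v : HeightOneSpectrum (𝓞 K) // below v = p}, fac a b N c s v.1 := by
    intro p
    obtain ⟨k, m, hm, hqm⟩ := Nat.exists_eq_pow_mul_and_not_dvd (NeZero.ne q) (p : ℕ) p.2.ne_one
    have : NeZero m := ⟨by rintro rfl; exact hm (dvd_zero _)⟩
    rw [char_prod N c q p p.2 m k hqm hm s, fiber_prod K H q p m k hqm hm s]
  simp_rw [h2] at h1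
  have h3 : Multipliable (fac (K := K) a b N c s) := multipliable_fac hE s hs
  rw [← (Equiv.sigmaFiberEquiv (below (K := K))).hasProd_iff]
  refine HasProd.sigma_of_hasProd h1 (fun p => ?_) ?_
  · exact hasProd_fintype _
  · exact (Equiv.sigmaFiberEquiv (below (K := K))).multipliable_iff.2 h3

end W165.CE
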