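import Pool.Agent.W165.CE.Avg

/-!
The average over all levels `q`, `X < q ≤ Y`, prime to a multiple `M` of the level `N` of the newform,
and all characters mod `q` (helper165).
-/

set_option autoImplicit false
set_option maxHeartbeats 4000000

open Finset DirichletCharacter UpperHalfPlane MatrixGroups CongruenceSubgroup
open H370 (zset mult NN Nd Ns)
open Pool.Agent.H82R3.EK (exp_big PP SS window fam_nonneg fam_le fam_ge sub_window)

namespace W165.CE

open W388 H385 in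
/-- everything that is needed about the family -/
theorem newf_packM {N : ℕ} [NeZero N] {k : ℤ} (hk : 1 ≤ k)
    {f : CuspForm (Gamma0 N : Subgroup (GL (Fin 2) ℝ)) k} {ε : ℝ} (hf : IsNewf N k f ε) :
    ∃ (A : ℝ) (F : (q : ℕ) → DirichletCharacter ℂ q → ℂ → ℂ), 1 ≤ A ∧
      (∀ (q : ℕ) (χ : DirichletCharacter ℂ q), 1 ≤ q → Nat.Coprime q N → χ.IsPrimitive →
        Differentiable ℂ (F q χ) ∧ (∀ s : ℂ, 1 < s.re →
          HasProd (fun p : Nat.Primes =>
            (1 - χ ((p : ℕ) : ZMod q) * (lamf f p : ℂ) * ((p : ℕ) : ℂ) ^ (-s) +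
              (if (p : ℕ) ∣ N then 0 else
                χ ((p : ℕ) : ZMod q) ^ 2 * ((p : ℕ) : ℂ) ^ (-2 * s)))⁻¹) (F q χ s)) ∧
        ∃ a : ℕ → ℂ, GoodE 2 A q (F q χ) a) ∧
      ∀ M : ℕ, M ≠ 0 → N ∣ M → ∃ δ K η X0 : ℝ, 0 < δ ∧ 1 ≤ K ∧ 0 < η ∧ 1 ≤ X0 ∧
      ∀ (X Y : ℕ) (T : ℝ), X0 ≤ X → K * X ≤ Y → (Y : ℝ) ≤ (X : ℝ) ^ (1 + η) →
        (Real.log X) ^ 2 ≤ T → T ≤ (X : ℝ) ^ η →
        (0.6725 + δ) * primFamM M X Y (fun q χ => (NN (F q χ) T (2 * T) : ℝ)) ≤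
          primFamM M X Y (fun q χ => (Ns (F q χ) T (2 * T) : ℝ)) := by
  obtain ⟨A, F, hA, h1, h2, h3⟩ := newf_twists1 Pool.Agent.W440.TW.t_twist
    Pool.Agent.W108.TW.t_mellin Pool.Agent.W820.TW.t_fe p_dir p_nzr p_rs p_sel hk hf
  have hN : N ≠ 0 := NeZero.ne N
  refine ⟨A, F, hA, ?_, ?_⟩
  · intro q χ hq hqN hχ
    obtain ⟨e1, e2⟩ := h3 q χ hq hqN hχ
    exact ⟨e1, e2, _, h1 q χ hq hqN hχ⟩
  · intro M hM0 hNM
    have h1' : TwE 2 A (rad M) (fun n => (cS N (lamf f) n : ℂ)) F := by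
      intro q χ hq hqN hχ
      exact h1 q χ (by omega) (Nat.Coprime.coprime_dvd_right hNM ((coprime_rad hM0 q).mp hqN)) hχ
    have hc : (2 : ℝ) / 2 * Rw 1.414 0 + 4 / 2 * (∫ α in (0 : ℝ)..1, α * Rw 1.414 α) < 1.3275 := by
      have := Rw_const_d2
      norm_num at this ⊢
      exact this
    obtain ⟨κ, hκ1, hκ2⟩ := exists_between hc
    obtain ⟨K, η, X0, hK, hη, hX0, h⟩ := final_of_const_E 2 A (by norm_num) hA (rad M)
      (rad_squarefree M) _ F h1' h2 1.414 κ (by norm_num) (by linarith [Real.pi_gt_three]) hκ1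
    refine ⟨1.3275 - κ, K, η, X0, by linarith, hK, hη, hX0, fun X Y T a1 a2 a3 a4 a5 => ?_⟩
    have := (h X Y T a1 a2 a3 a4 a5).1
    simp only [primFamM_rad hM0] at this
    have e : (0.6725 + (1.3275 - κ) : ℝ) = 2 - κ := by norm_num; ring
    rw [e]
    exact this

/-- the average over all characters of level `q` -/
theorem avg_mainM {N : ℕ} [NeZero N] {k : ℤ} (hk : 1 ≤ k)
    {f : CuspForm (Gamma0 N : Subgroup (GL (Fin 2) ℝ)) k} {ε : ℝ} (hf : W388.IsNewf N k f ε) :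
    ∃ (L : (q : ℕ) → DirichletCharacter ℂ q → ℂ → ℂ) (A : ℝ), 1 ≤ A ∧
      (∀ (q : ℕ) (χ : DirichletCharacter ℂ q), 1 ≤ q → Nat.Coprime q N → χ.IsPrimitive →
        Differentiable ℂ (L q χ) ∧ (∀ s : ℂ, 1 < s.re →
          HasProd (fun p : Nat.Primes =>
            (1 - χ ((p : ℕ) : ZMod q) * (W388.lamf f p : ℂ) * ((p : ℕ) : ℂ) ^ (-s) +
              (if (p : ℕ) ∣ N then 0 else
                χ ((p : ℕ) : ZMod q) ^ 2 * ((p : ℕ) : ℂ) ^ (-2 * s)))⁻¹) (L q χ s)) ∧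
        ∃ a : ℕ → ℂ, W388.GoodE 2 A (q : ℝ) (L q χ) a) ∧
      ∀ M : ℕ, M ≠ 0 → N ∣ M → ∃ K η X0 : ℝ, 1 ≤ K ∧ 0 < η ∧ 1 ≤ X0 ∧
        ∀ (X Y : ℕ) (T : ℝ), X0 ≤ X → K * X ≤ Y → (Y : ℝ) ≤ (X : ℝ) ^ (1 + η) →
        (Real.log X) ^ 2 ≤ T → T ≤ (X : ℝ) ^ η →
        T ≤ ∑ q ∈ (Finset.Ioc X Y).filter (fun q => Nat.Coprime q M),
            (1 / (q : ℝ) ^ 2) * SS (fun q χ => (NN (L q χ) T (2 * T) : ℝ)) q ∧
        0.6725 * ∑ q ∈ (Finset.Ioc X Y).filter (fun q => Nat.Coprime q M),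
            (1 / (q : ℝ) ^ 2) * SS (fun q χ => (NN (L q χ) T (2 * T) : ℝ)) q ≤
          ∑ q ∈ (Finset.Ioc X Y).filter (fun q => Nat.Coprime q M),
            (1 / (q : ℝ) ^ 2) * SS (fun q χ => (Ns (L q χ) T (2 * T) : ℝ)) q := by
  classical
  obtain ⟨A, L, hA, hL, hpack⟩ := newf_packM hk hf
  refine ⟨L, A, hA, hL, ?_⟩
  intro M hM0 hNM
  obtain ⟨δ, K0, η0, X00, hδ, hK0, hη0, hX00, hW⟩ := hpack M hM0 hNM
  have hMsq : Squarefree (W388.rad M) := W388.rad_squarefree M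
  obtain ⟨CU, hCU, hU⟩ := W388.zcount_long_D 2 A (by norm_num) hA
  obtain ⟨ℓ1, hℓ1, hLow⟩ := lower A hA
  obtain ⟨Cm, hCm, hmass⟩ := H385.prim_mass_M (W388.rad M) hMsq
  have hcM := H385.cM_pos (W388.rad M) hMsq
  set η1 : ℝ := min η0 1 with hη1
  have hη1pos : 0 < η1 := lt_min hη0 one_pos
  have hη1le : η1 ≤ 1 := min_le_right _ _
  obtain ⟨X1, hX1, hsub⟩ := sub_window K0 η1 X00 hK0 hη1pos hη1le
  obtain ⟨ℓ2, hℓ2, hexp⟩ := exp_big (24 * CU / δ)
  set K1 : ℝ := max (2 * K0) (Real.exp ((Cm + 1) / H385.cM (W388.rad M))) with hK1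
  refine ⟨K1, η1 / 3, max X1 (Real.exp (max (max ℓ1 ℓ2) 2)), ?_, by positivity, le_trans hX1 (le_max_left _ _), ?_⟩
  · exact le_trans (by linarith) (le_max_left _ _)
  intro X Y T hX hXY hYX hT1 hT2
  have c1 : X1 ≤ X := le_trans (le_max_left _ _) hX
  have c2 : Real.exp (max (max ℓ1 ℓ2) 2) ≤ X := le_trans (le_max_right _ _) hX
  have hX1' : (1 : ℝ) ≤ X := le_trans hX1 c1
  have hX0' : (0 : ℝ) < X := by linarith
  have hXn : 1 ≤ X := by exact_mod_cast hX1'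
  set ℓ := Real.log X with hℓ
  have d0 : max (max ℓ1 ℓ2) 2 ≤ ℓ := by
    rw [hℓ, Real.le_log_iff_exp_le hX0']; exact c2
  have d1 : ℓ1 ≤ ℓ := le_trans (le_trans (le_max_left _ _) (le_max_left _ _)) d0
  have d2 : ℓ2 ≤ ℓ := le_trans (le_trans (le_max_right _ _) (le_max_left _ _)) d0
  have d3 : 2 ≤ ℓ := le_trans (le_max_right _ _) d0
  have hℓ1' : 1 ≤ ℓ := le_trans hℓ1 d1
  have hK1K : 2 * K0 * X ≤ Y := le_trans (mul_le_mul_of_nonneg_right (le_max_left _ _) hX0'.le) hXY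
  have hXYr : (X : ℝ) ≤ Y := by
    have : (1 : ℝ) * X ≤ 2 * K0 * X := mul_le_mul_of_nonneg_right (by linarith) hX0'.le
    linarith
  have hXYn : X ≤ Y := by exact_mod_cast hXYr
  have hY0 : (0 : ℝ) < Y := by linarith
  have hYX2 : (Y : ℝ) ≤ (X : ℝ) ^ 2 := by
    refine hYX.trans ?_
    calc (X : ℝ) ^ (1 + η1 / 3) ≤ (X : ℝ) ^ (2 : ℝ) := Real.rpow_le_rpow_of_exponent_le hX1' (by linarith)
      _ = (X : ℝ) ^ 2 := by norm_num
  have hTX : T ≤ X := by
    refine hT2.trans ?_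
    calc (X : ℝ) ^ (η1 / 3) ≤ (X : ℝ) ^ (1 : ℝ) := Real.rpow_le_rpow_of_exponent_le hX1' (by linarith)
      _ = X := Real.rpow_one _
  have hTlow : 4 ≤ T := le_trans (by nlinarith only [d3]) hT1
  have hT0 : 0 < T := by linarith
  set n : (q : ℕ) → DirichletCharacter ℂ q → ℝ := fun q χ => (NN (L q χ) T (2 * T) : ℝ) with hn
  set sf : (q : ℕ) → DirichletCharacter ℂ q → ℝ := fun q χ => (Ns (L q χ) T (2 * T) : ℝ) with hsf
  have hn0 : ∀ q χ, 0 ≤ n q χ := fun q χ => Nat.cast_nonneg _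
  have hs0 : ∀ q χ, 0 ≤ sf q χ := fun q χ => Nat.cast_nonneg _
  -- the sum over `m`
  rw [window M X Y n, window M X Y sf]
  set mset := (Finset.Icc 1 Y).filter (fun m => Nat.Coprime m M) with hmset
  set B := Nat.sqrt X with hB
  set P : ((q : ℕ) → DirichletCharacter ℂ q → ℝ) → ℕ → ℝ :=
    fun f m => (1 / (m : ℝ) ^ 2) * H385.primFamM M (X / m) (Y / m) f with hP
  have hP0 : ∀ m, 0 ≤ P n m := fun m => mul_nonneg (by positivity) (fam_nonneg hn0 _ _ _)
  have hPs0 : ∀ m, 0 ≤ P sf m := fun m => mul_nonneg (by positivity) (fam_nonneg hs0 _ _ _)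
  have hsplit := Finset.sum_filter_add_sum_filter_not mset (fun m => m ≤ B) (P n)
  -- small `m`
  have hsmall : (0.6725 + δ) * ∑ m ∈ mset.filter (fun m => m ≤ B), P n m ≤ ∑ m ∈ mset.filter (fun m => m ≤ B), P sf m := by
    rw [Finset.mul_sum]
    apply Finset.sum_le_sum
    intro m hm
    rw [mem_filter, hmset, mem_filter, mem_Icc] at hm
    obtain ⟨⟨⟨h1, _⟩, _⟩, h4⟩ := hm
    obtain ⟨w1, w2, w3, w4, w5⟩ := hsub X Y m T c1 hK1K hYX hT1 hT2 h1 h4
    have hx1 : (1 : ℝ) ≤ ((X / m : ℕ) : ℝ) := le_trans hX00 w1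
    have w3' : ((Y / m : ℕ) : ℝ) ≤ ((X / m : ℕ) : ℝ) ^ (1 + η0) :=
      w3.trans (Real.rpow_le_rpow_of_exponent_le hx1 (by linarith [min_le_left η0 1]))
    have w5' : T ≤ ((X / m : ℕ) : ℝ) ^ η0 :=
      w5.trans (Real.rpow_le_rpow_of_exponent_le hx1 (min_le_left η0 1))
    have := hW (X / m) (Y / m) T w1 w2 w3' w4 w5'
    calc (0.6725 + δ) * P n m = (1 / (m : ℝ) ^ 2) * ((0.6725 + δ) * H385.primFamM M (X / m) (Y / m) n) := by rw [hP]; ring
      _ ≤ (1 / (m : ℝ) ^ 2) * H385.primFamM M (X / m) (Y / m) sf := mul_le_mul_of_nonneg_left this (by positivity)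
  -- large `m`
  have hlogY : Real.log Y ≤ 2 * ℓ := by
    have := Real.log_le_log hY0 hYX2
    rwa [Real.log_pow] at this
  have hlogY0 : 0 ≤ Real.log Y := Real.log_nonneg (by linarith)
  have hlogT : Real.log T ≤ ℓ := Real.log_le_log hT0 hTX
  have hlog2D : Real.log 2 ≤ ℓ := by
    have := Real.log_two_lt_d9
    linarith
  set bn : ℝ := CU * T * (4 * ℓ) with hbn
  have hbn0 : 0 ≤ bn := by positivity
  have hup : ∀ d : ℕ, 1 ≤ d → d ≤ Y → Nat.Coprime d M → ∀ χ : DirichletCharacter ℂ d, χ.IsPrimitive → n d χ ≤ bn := by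
    intro d h1 h2 h3 χ h4
    obtain ⟨_, _, a, ha⟩ := hL d χ h1 (Nat.Coprime.coprime_dvd_right hNM h3) h4
    have hd0 : (1 : ℝ) ≤ d := by exact_mod_cast h1
    have h5 := hU _ (L d χ) a hd0 ha T (2 * T) (by linarith) (by linarith)
    refine h5.trans ?_
    have h6 : 2 * T - T = T := by ring
    rw [h6, hbn]
    apply mul_le_mul_of_nonneg_left _ (by positivity)
    have h7 : (d : ℝ) * (2 * T) ≤ Y * 2 * T := by
      have h8 : (d : ℝ) ≤ Y := by exact_mod_cast h2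
      calc (d : ℝ) * (2 * T) = d * 2 * T := by ring
        _ ≤ Y * 2 * T := by gcongr
    have h9 := Real.log_le_log (mul_pos (by linarith) (by linarith)) h7
    have h10 : Real.log (Y * 2 * T) = Real.log Y + Real.log 2 + Real.log T := by
      rw [Real.log_mul (by positivity) (by positivity), Real.log_mul (by positivity) (by positivity)]
    linarith
  have htail : ∑ m ∈ mset.filter (fun m => ¬ m ≤ B), P n m ≤ δ * T := by
    have e1 : ∀ m ∈ mset.filter (fun m => ¬ m ≤ B), P n m ≤ (bn * (1 + Real.log Y)) * ((m : ℝ) ^ 2)⁻¹ := by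
      intro m hm
      rw [mem_filter, hmset, mem_filter, mem_Icc] at hm
      have h1 : H385.primFamM M (X / m) (Y / m) n ≤ bn * (1 + Real.log Y) :=
        fam_le hbn0 (Nat.div_le_self Y m) (by omega) hup
      calc P n m = (1 / (m : ℝ) ^ 2) * H385.primFamM M (X / m) (Y / m) n := rfl
        _ ≤ (1 / (m : ℝ) ^ 2) * (bn * (1 + Real.log Y)) := mul_le_mul_of_nonneg_left h1 (by positivity)
        _ = _ := by ring
    refine (Finset.sum_le_sum e1).trans ?_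
    rw [← Finset.mul_sum]
    have e2 : ∑ m ∈ mset.filter (fun m => ¬ m ≤ B), ((m : ℝ) ^ 2)⁻¹ ≤ 2 / ((B : ℝ) + 1) := by
      refine le_trans ?_ (sum_Ioo_inv_sq_le (α := ℝ) B (Y + 1))
      apply Finset.sum_le_sum_of_subset_of_nonneg
      · intro m hm
        rw [mem_filter, hmset, mem_filter, mem_Icc] at hm
        rw [mem_Ioo]
        omega
      · intro m _ _
        positivity
    have hBr : Real.exp (ℓ / 2) ≤ (B : ℝ) + 1 := by
      have h1 : X < (B + 1) * (B + 1) := Nat.lt_succ_sqrt X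
      have h2 : (X : ℝ) < ((B : ℝ) + 1) * (B + 1) := by exact_mod_cast h1
      have h3 : Real.exp (ℓ / 2) ^ 2 = X := by
        rw [← Real.exp_nat_mul, hℓ]
        push_cast
        rw [show (2 : ℝ) * (Real.log X / 2) = Real.log X by ring, Real.exp_log hX0']
      have h4 : 0 ≤ (B : ℝ) + 1 := by positivity
      by_contra hcon
      push Not at hcon
      have := mul_self_lt_mul_self h4 hcon
      rw [← sq (Real.exp (ℓ / 2)), h3] at this
      linarith
    have hE := hexp ℓ d2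
    have hEpos := Real.exp_pos (ℓ / 2)
    have e3 : 1 + Real.log Y ≤ 3 * ℓ := by linarith
    calc (bn * (1 + Real.log Y)) * ∑ m ∈ mset.filter (fun m => ¬ m ≤ B), ((m : ℝ) ^ 2)⁻¹ ≤
          (bn * (3 * ℓ)) * (2 / ((B : ℝ) + 1)) := by
            apply mul_le_mul _ e2 (Finset.sum_nonneg fun m _ => by positivity) (by positivity)
            exact mul_le_mul_of_nonneg_left e3 hbn0
      _ ≤ (bn * (3 * ℓ)) * (2 / Real.exp (ℓ / 2)) := by
            apply mul_le_mul_of_nonneg_left _ (by positivity)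
            exact div_le_div_of_nonneg_left (by norm_num) hEpos hBr
      _ = (δ * T) * (24 * CU / δ * ℓ ^ 2 / Real.exp (ℓ / 2)) := by rw [hbn]; field_simp; ring
      _ ≤ (δ * T) * 1 := by
            apply mul_le_mul_of_nonneg_left _ (by positivity)
            rw [div_le_one hEpos]; exact hE
      _ = δ * T := mul_one _
  -- the term `m = 1`
  have hB1 : 1 ≤ B := by
    rw [hB, Nat.le_sqrt]
    omega
  have h1mem : 1 ∈ mset.filter (fun m => m ≤ B) := by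
    rw [mem_filter, hmset, mem_filter, mem_Icc]
    exact ⟨⟨⟨le_rfl, by omega⟩, Nat.coprime_one_left M⟩, hB1⟩
  have hmain : T ≤ ∑ m ∈ mset.filter (fun m => m ≤ B), P n m := by
    refine le_trans ?_ (Finset.single_le_sum (fun m _ => hP0 m) h1mem)
    have e1 : P n 1 = H385.primFamM M X Y n := by
      show (1 / ((1 : ℕ) : ℝ) ^ 2) * H385.primFamM M (X / 1) (Y / 1) n = _
      rw [Nat.div_one, Nat.div_one]
      norm_num
    rw [e1]
    have e2 : 1 ≤ H385.primFamM M X Y (fun _ _ => 1) := by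
      have h1 := (abs_le.1 (hmass X Y hXn hXYn)).1
      rw [W388.primFamM_rad hM0] at h1
      have h2 : Real.exp ((Cm + 1) / H385.cM (W388.rad M)) ≤ (Y : ℝ) / X := by
        rw [le_div_iff₀ hX0']
        exact le_trans (mul_le_mul_of_nonneg_right (le_max_right _ _) hX0'.le) hXY
      have h3 : (Cm + 1) / H385.cM (W388.rad M) ≤ Real.log ((Y : ℝ) / X) := by
        rw [Real.le_log_iff_exp_le (by positivity)]; exact h2
      rw [div_le_iff₀ hcM] at h3
      linarith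
    have e3 := fam_ge (f := n) (c := T) (M := M) (X := X) (Y := Y) hT0.le (by
      intro d h1 h2 h3 χ h4
      obtain ⟨_, _, a, ha⟩ := hL d χ (by omega) (Nat.Coprime.coprime_dvd_right hNM h3) h4
      refine hLow X d (L d χ) a T hX1' d1 ?_ ?_ hT1 hTX ha
      · exact_mod_cast h1.le
      · refine le_trans ?_ hYX2
        exact_mod_cast h2)
    calc T = T * 1 := (mul_one T).symm
      _ ≤ T * H385.primFamM M X Y (fun _ _ => 1) := mul_le_mul_of_nonneg_left e2 hT0.le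
      _ ≤ _ := e3
  have hnot : 0 ≤ ∑ m ∈ mset.filter (fun m => ¬ m ≤ B), P n m :=
    Finset.sum_nonneg fun m _ => hP0 m
  refine ⟨?_, ?_⟩
  · show T ≤ ∑ m ∈ mset, P n m
    linarith
  have hle : ∑ m ∈ mset.filter (fun m => m ≤ B), P sf m ≤ ∑ m ∈ mset, P sf m :=
    Finset.sum_le_sum_of_subset_of_nonneg (Finset.filter_subset _ _) (fun m _ _ => hPs0 m)
  have h6 : 0.6725 * (δ * T) ≤ δ * ∑ m ∈ mset.filter (fun m => m ≤ B), P n m := by
    have := mul_le_mul_of_nonneg_left hmain hδ.le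
    have h0 : 0 ≤ δ * T := by positivity
    linarith
  have hgoal : 0.6725 * ∑ m ∈ mset, P n m ≤ ∑ m ∈ mset, P sf m := by
    rw [← hsplit]
    nlinarith
  exact hgoal

end W165.CE
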