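import Pool.Agent.W165.CE.AvgM
import Pool.Agent.W165.CE.Euler

/-!
The Euler product of a newform over the cyclotomic field of level `q` (helper165).
-/

set_option autoImplicit false

namespace W165.CE

open NumberField IsDedekindDomain Filter
open Pool.Agent.H921R2.TatePole
open Pool.Agent.H82R3.EK (deg_and_count nm_cpow prime_cpow)

section
variable {K : Type} [Field K] [NumberField K]

open Classical in
/-- the local factor at `v` of the base change of a newform with coefficients `c` -/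
noncomputable def facN (N : ℕ) (c : ℕ → ℂ) (s : ℂ) (v : HeightOneSpectrum (𝓞 K)) : ℂ :=
  (1 - pw (c (Ideal.absNorm v.asIdeal).minFac)
        (if (Ideal.absNorm v.asIdeal).minFac ∣ N then 0 else ((Ideal.absNorm v.asIdeal).minFac : ℂ))
        ((Ideal.absNorm v.asIdeal).factorization (Ideal.absNorm v.asIdeal).minFac)
        * ((Ideal.absNorm v.asIdeal : ℕ) : ℂ) ^ (-s)
    + (if (Ideal.absNorm v.asIdeal).minFac ∣ N then (0 : ℂ) else
        ((Ideal.absNorm v.asIdeal : ℕ) : ℂ) ^ (1 - 2 * s)))⁻¹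

open Classical in
/-- the factor in terms of the prime below -/
lemma facN_eq (N : ℕ) (c : ℕ → ℂ) (v : HeightOneSpectrum (𝓞 K)) (s : ℂ) :
    facN N c s v = (1 - pw (c (below v)) (if (below v : ℕ) ∣ N then 0 else ((below v : ℕ) : ℂ))
        (deg v) * (((below v : ℕ) : ℂ) ^ (-s)) ^ deg v +
      (if (below v : ℕ) ∣ N then 0 else ((below v : ℕ) : ℂ)) ^ deg v *
        (((below v : ℕ) : ℂ) ^ (-s)) ^ (2 * deg v))⁻¹ := by
  have hdeg : deg v ≠ 0 := (nm_eq v).2.1.ne'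
  have hpc : ((Ideal.absNorm v.asIdeal : ℕ) : ℂ) ^ (1 - 2 * s) =
      (((below v : ℕ) : ℂ)) ^ deg v * (((below v : ℕ) : ℂ) ^ (-s)) ^ (2 * deg v) := by
    rw [nm_cpow, prime_cpow _ (below v).2.ne_zero, mul_pow, ← pow_mul]
  have hb : (Ideal.absNorm v.asIdeal).minFac = (below v : ℕ) := rfl
  have hd : (Ideal.absNorm v.asIdeal).factorization (Ideal.absNorm v.asIdeal).minFac = deg v := rfl
  unfold facN
  rw [hd, hb]
  by_cases h2 : (below v : ℕ) ∣ N
  · rw [if_pos h2, if_pos h2, nm_cpow, zero_pow hdeg, zero_mul]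
  · rw [if_neg h2, if_neg h2, hpc, nm_cpow]

lemma root_bd {c u α β : ℂ} {p : ℝ} (hp : 0 ≤ p) (hu : ‖u‖ ≤ p) (h1 : α + β = c) (h2 : α * β = u) :
    ‖α‖ ≤ ‖c‖ + Real.sqrt p := by
  have h3 : α ^ 2 = c * α - u := by rw [← h1, ← h2]; ring
  have h4 : ‖α‖ ^ 2 ≤ ‖c‖ * ‖α‖ + p := by
    rw [← norm_pow, h3]
    refine (norm_sub_le _ _).trans ?_
    rw [norm_mul]
    linarith
  by_contra hcon
  push Not at hcon
  have h5 := Real.sqrt_nonneg p
  have h6 := Real.sq_sqrt hp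
  have h7 : 0 ≤ ‖c‖ := norm_nonneg c
  nlinarith

/-- the part of the factor different from one -/
lemma facN_sub_bound (N : ℕ) (c : ℕ → ℂ) (v : HeightOneSpectrum (𝓞 K)) (s : ℂ)
    (hz : ‖c (below v) * (((below v : ℕ) : ℂ)) ^ (-s)‖ + ((below v : ℕ) : ℝ) ^ (1 / 2 - s.re) ≤ 1 / 6) :
    ‖facN N c s v - 1‖ ≤
      6 * (‖c (below v) * (((below v : ℕ) : ℂ)) ^ (-s)‖ + ((below v : ℕ) : ℝ) ^ (1 / 2 - s.re)) := by
  classical
  set p : ℕ := (below v : ℕ) with hp
  have hpp : p.Prime := (below v).2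
  have hp0 : (0 : ℝ) < p := by exact_mod_cast hpp.pos
  set z : ℝ := ‖c p * ((p : ℂ)) ^ (-s)‖ + (p : ℝ) ^ (1 / 2 - s.re) with hzdef
  have hz0 : 0 ≤ z := by positivity
  rw [facN_eq]
  set u : ℂ := if p ∣ N then 0 else (p : ℂ) with hu
  have hub : ‖u‖ ≤ p := by
    rw [hu]; split_ifs
    · simp
    · simp
  obtain ⟨α, β, h1, h2⟩ := exists_roots' (c p) u
  set X : ℂ := (p : ℂ) ^ (-s) with hX
  have hXn : ‖X‖ = (p : ℝ) ^ (-s.re) := by
    rw [hX, Complex.norm_natCast_cpow_of_pos hpp.pos, Complex.neg_re]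
  have key : ∀ γ : ℂ, ‖γ‖ ≤ ‖c p‖ + Real.sqrt p → ‖(γ * X) ^ deg v‖ ≤ z := by
    intro γ hγ
    have e1 : ‖γ * X‖ ≤ z := by
      rw [norm_mul, hzdef, norm_mul, hXn]
      have e2 : Real.sqrt p * (p : ℝ) ^ (-s.re) = (p : ℝ) ^ (1 / 2 - s.re) := by
        rw [Real.sqrt_eq_rpow, ← Real.rpow_add hp0]
        congr 1
      calc ‖γ‖ * (p : ℝ) ^ (-s.re) ≤ (‖c p‖ + Real.sqrt p) * (p : ℝ) ^ (-s.re) :=
            mul_le_mul_of_nonneg_right hγ (by positivity)
        _ = _ := by rw [add_mul, e2]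
    rw [norm_pow]
    calc ‖γ * X‖ ^ deg v ≤ z ^ deg v := pow_le_pow_left₀ (norm_nonneg _) e1 _
      _ ≤ z := pow_le_of_le_one hz0 (by linarith) (nm_eq v).2.1.ne'
  have hA := key α (root_bd hp0.le hub h1 h2)
  have hB := key β (root_bd hp0.le hub (by rw [add_comm]; exact h1) (by rw [mul_comm]; exact h2))
  set A := (α * X) ^ deg v with hAd
  set B := (β * X) ^ deg v with hBd
  have e1 : 1 - pw (c p) u (deg v) * X ^ deg v + u ^ deg v * X ^ (2 * deg v) = 1 + (-(A + B - A * B)) := by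
    rw [pw_eq h1 h2, ← h2, hAd, hBd, mul_pow, mul_pow, mul_pow, pow_mul']
    ring
  rw [e1]
  set t := -(A + B - A * B) with ht
  have ht1 : ‖t‖ ≤ 3 * z := by
    rw [ht, norm_neg]
    have h3 : ‖A * B‖ ≤ z * z := by
      rw [norm_mul]; exact mul_le_mul hA hB (norm_nonneg _) hz0
    calc ‖A + B - A * B‖ ≤ ‖A + B‖ + ‖A * B‖ := norm_sub_le _ _
      _ ≤ (‖A‖ + ‖B‖) + z * z := add_le_add (norm_add_le _ _) h3
      _ ≤ 3 * z := by nlinarith
  have h3 : 1 / 2 ≤ ‖1 + t‖ := by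
    have := norm_sub_norm_le (1 : ℂ) (-t)
    rw [sub_neg_eq_add, norm_neg, norm_one] at this
    linarith
  have hne : 1 + t ≠ 0 := by
    intro h
    rw [h, norm_zero] at h3
    linarith
  have e4 : (1 + t)⁻¹ - 1 = -t / (1 + t) := by field_simp; ring
  rw [e4, norm_div, norm_neg, div_le_iff₀ (by linarith)]
  nlinarith [norm_nonneg t]

lemma summable_below {z : Nat.Primes → ℝ} (hz0 : ∀ p, 0 ≤ z p) (hz : Summable z) :
    Summable (fun v : HeightOneSpectrum (𝓞 K) => z (below v)) := by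
  rw [← (Equiv.sigmaFiberEquiv (below (K := K))).summable_iff]
  refine (summable_sigma_of_nonneg (f := (fun v : HeightOneSpectrum (𝓞 K) => z (below v)) ∘
    (Equiv.sigmaFiberEquiv (below (K := K)))) (fun x => hz0 _)).2 ⟨?_, ?_⟩
  · intro p
    exact Summable.of_finite
  · refine Summable.of_nonneg_of_le (fun p => tsum_nonneg fun _ => hz0 _) (fun p => ?_)
      (hz.mul_left (Module.finrank ℚ K : ℝ))
    rw [tsum_fintype]
    have h1 : ∀ v : {v : HeightOneSpectrum (𝓞 K) // below v = p},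
        ((fun v : HeightOneSpectrum (𝓞 K) => z (below v)) ∘
          (Equiv.sigmaFiberEquiv (below (K := K)))) ⟨p, v⟩ = z p := by
      rintro ⟨v, hv⟩
      show z (below v) = z p
      rw [hv]
    rw [Finset.sum_congr rfl (fun v _ => h1 v), Finset.sum_const, Finset.card_univ, nsmul_eq_mul]
    exact mul_le_mul_of_nonneg_right (by exact_mod_cast fiber_card_le p) (hz0 p)

lemma multipliable_facN (N : ℕ) (c : ℕ → ℂ) (s : ℂ) (hs : 3 / 2 < s.re)
    (hc : Summable (fun p : Nat.Primes => ‖c p * ((p : ℕ) : ℂ) ^ (-s)‖)) :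
    Multipliable (facN (K := K) N c s) := by
  set z : Nat.Primes → ℝ := fun p => ‖c p * ((p : ℕ) : ℂ) ^ (-s)‖ + ((p : ℕ) : ℝ) ^ (1 / 2 - s.re) with hz
  have hz0 : ∀ p, 0 ≤ z p := fun p => by rw [hz]; positivity
  have hzs : Summable z := hc.add (Nat.Primes.summable_rpow.2 (by linarith))
  have hv := summable_below (K := K) hz0 hzs
  have h1 : Summable (fun v : HeightOneSpectrum (𝓞 K) => ‖facN N c s v - 1‖) := by
    refine Summable.of_norm_bounded_eventually (hv.mul_left 6) ?_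
    have h2 := hv.tendsto_cofinite_zero.eventually (Iio_mem_nhds (by norm_num : (0 : ℝ) < 1 / 6))
    filter_upwards [h2] with v hv
    rw [norm_norm]
    exact facN_sub_bound N c v s (le_of_lt hv)
  have h2 := multipliable_one_add_of_summable h1
  refine h2.congr (fun v => ?_)
  ring

open Classical in
variable (K) in
/-- product over the places above `p` -/
lemma fiber_prodN (N : ℕ) (c : ℕ → ℂ)
    (q : ℕ) [NeZero q] [IsCyclotomicExtension {q} ℚ K] (p : Nat.Primes)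
    (m k : ℕ) [NeZero m] (hq : q = (p : ℕ) ^ k * m) (hm : ¬ (p : ℕ) ∣ m) (s : ℂ) :
    ∏ v : {v : HeightOneSpectrum (𝓞 K) // below v = p}, facN N c s v.1 =
      ((1 - pw (c p) (if (p : ℕ) ∣ N then 0 else ((p : ℕ) : ℂ)) (orderOf ((p : ℕ) : ZMod m)) *
        (((p : ℕ) : ℂ) ^ (-s)) ^ orderOf ((p : ℕ) : ZMod m) +
        (if (p : ℕ) ∣ N then 0 else ((p : ℕ) : ℂ)) ^ orderOf ((p : ℕ) : ZMod m) *
          (((p : ℕ) : ℂ) ^ (-s)) ^ (2 * orderOf ((p : ℕ) : ZMod m))) ^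
          (Nat.totient m / orderOf ((p : ℕ) : ZMod m)))⁻¹ := by
  obtain ⟨h1, h2⟩ := deg_and_count K q p m k hq hm
  have h3 : ∀ v : {v : HeightOneSpectrum (𝓞 K) // below v = p}, facN N c s v.1 =
      (1 - pw (c p) (if (p : ℕ) ∣ N then 0 else ((p : ℕ) : ℂ)) (orderOf ((p : ℕ) : ZMod m)) *
        (((p : ℕ) : ℂ) ^ (-s)) ^ orderOf ((p : ℕ) : ZMod m) +
        (if (p : ℕ) ∣ N then 0 else ((p : ℕ) : ℂ)) ^ orderOf ((p : ℕ) : ZMod m) *
          (((p : ℕ) : ℂ) ^ (-s)) ^ (2 * orderOf ((p : ℕ) : ZMod m)))⁻¹ := by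
    rintro ⟨v, hv⟩
    have h4 := h1 v hv
    subst hv
    rw [facN_eq N c v, h4]
  rw [Finset.prod_congr rfl (fun v _ => h3 v), Finset.prod_const, Finset.card_univ, h2, inv_pow]

end

/-- the Euler product -/
theorem hasProd_eulerN {N N' : ℕ} (hNN : N ∣ N') {c : ℕ → ℂ}
    (L : (q : ℕ) → DirichletCharacter ℂ q → ℂ → ℂ)
    (hL : ∀ (q : ℕ) (χ : DirichletCharacter ℂ q), 1 ≤ q → Nat.Coprime q N → χ.IsPrimitive →
        ∀ s : ℂ, 3 / 2 < s.re → HasProd (fun p : Nat.Primes => eul N c q χ s p) (L q χ s))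
    (q : ℕ) [NeZero q] (hq : Nat.Coprime q N') (K : Type) [Field K] [NumberField K]
    [IsCyclotomicExtension {q} ℚ K] (s : ℂ) (hs : 3 / 2 < s.re)
    (hc : Summable (fun p : Nat.Primes => ‖c p * ((p : ℕ) : ℂ) ^ (-s)‖)) :
    HasProd (facN (K := K) N c s)
      (∏ χ : DirichletCharacter ℂ q, L χ.conductor χ.primitiveCharacter s) := by
  have h1 : HasProd (fun p : Nat.Primes => ∏ χ : DirichletCharacter ℂ q,
      eul N c χ.conductor χ.primitiveCharacter s p)
      (∏ χ : DirichletCharacter ℂ q, L χ.conductor χ.primitiveCharacter s) := by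
    apply hasProd_prod
    intro χ _
    exact hL χ.conductor χ.primitiveCharacter (Nat.one_le_iff_ne_zero.2 χ.conductor_ne_zero)
      (Nat.Coprime.coprime_dvd_right hNN (Nat.Coprime.coprime_dvd_left χ.conductor_dvd_level hq))
      χ.primitiveCharacter_isPrimitive _ hs
  have h2 : ∀ p : Nat.Primes, ∏ χ : DirichletCharacter ℂ q,
      eul N c χ.conductor χ.primitiveCharacter s p =
      ∏ v : {v : HeightOneSpectrum (𝓞 K) // below v = p}, facN N c s v.1 := by
    intro p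
    obtain ⟨k, m, hm, hqm⟩ := Nat.exists_eq_pow_mul_and_not_dvd (NeZero.ne q) (p : ℕ) p.2.ne_one
    have : NeZero m := ⟨by rintro rfl; exact hm (dvd_zero _)⟩
    rw [char_prod N c q p p.2 m k hqm hm s, fiber_prodN K N c q p m k hqm hm s]
  simp_rw [h2] at h1
  have h3 : Multipliable (facN (K := K) N c s) := multipliable_facN N c s hs hc
  rw [← (Equiv.sigmaFiberEquiv (below (K := K))).hasProd_iff]
  refine HasProd.sigma_of_hasProd h1 (fun p => ?_) ?_
  · exact hasProd_fintype _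
  · exact (Equiv.sigmaFiberEquiv (below (K := K))).multipliable_iff.2 h3

open UpperHalfPlane MatrixGroups CongruenceSubgroup in
/-- absolute convergence of the Dirichlet series of a newform -/
theorem newf_summable {N : ℕ} [NeZero N] {k : ℤ} (hk : 1 ≤ k)
    {f : CuspForm (Gamma0 N : Subgroup (GL (Fin 2) ℝ)) k} {ε : ℝ} (hf : W388.IsNewf N k f ε)
    (s : ℂ) (hs : 1 < s.re) :
    Summable (fun n : ℕ => ‖(W388.lamf f n : ℂ) * (n : ℂ) ^ (-s)‖) := by
  have hN : 0 < N := Nat.pos_of_ne_zero (NeZero.ne N)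
  have hH := W388.heckeSeq_lamf hf
  have hR := W388.p_rs N k hk f ε hf
  obtain ⟨A1, hA1, d1, d2, d3⟩ := W388.p_dir N hN (W388.lamf f) hH hR
  have := (d3 1 1 (fun s => ∑' n : ℕ, (1 : DirichletCharacter ℂ 1) (n : ZMod 1) *
    (W388.lamf f n : ℂ) * (n : ℂ) ^ (-s)) (fun _ _ => rfl)).1 s hs
  refine this.congr fun n => ?_
  have h1 : (1 : DirichletCharacter ℂ 1) (n : ZMod 1) = 1 := by
    rw [Subsingleton.elim (n : ZMod 1) 1, map_one]
  rw [h1, one_mul]

end W165.CE
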