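import Pool.Agent.W388.TW.Final
import Pool.Agent.H82R3.EK.Main

/-!
The twists `L(s, f × χ)` of a newform by all primitive characters of conductor `q ≥ 1` prime to the
level: goodness for all `q ≥ 1`, and the family inequality with a constant a little above 0.6725
(helper165; the proof of `newf_twists1` is that of `W388.newf_twists`, owner helper388).
-/

set_option autoImplicit false
set_option maxHeartbeats 4000000

open Complex Filter Topology Set MeasureTheory UpperHalfPlane MatrixGroups CongruenceSubgroup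

namespace W165.CE

open W388 H385
open H370 (zset mult NN Nd Ns)

/-- everything about the twists of a newform -/
theorem newf_twists1 (htw : StTwist) (hme : StMellin) (hfe : StFE) (hdir : StDir) (hnz : StNzr)
    (hrs : StRS) (hsel : StSel) {N : ℕ} [NeZero N] {k : ℤ} (hk : 1 ≤ k)
    {f : CuspForm (Gamma0 N : Subgroup (GL (Fin 2) ℝ)) k} {ε : ℝ} (hf : IsNewf N k f ε) :
    ∃ (A : ℝ) (F : (q : ℕ) → DirichletCharacter ℂ q → ℂ → ℂ), 1 ≤ A ∧
      (∀ (q : ℕ) (χ : DirichletCharacter ℂ q), 1 ≤ q → Nat.Coprime q N → χ.IsPrimitive →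
        GoodE 2 A q (F q χ) (fun n => χ (n : ZMod q) * (cS N (lamf f) n : ℂ) *
          (ArithmeticFunction.vonMangoldt n : ℂ))) ∧
      SelE (fun n => (cS N (lamf f) n : ℂ)) ∧
      ∀ (q : ℕ) (χ : DirichletCharacter ℂ q), 1 ≤ q → Nat.Coprime q N → χ.IsPrimitive →
        Differentiable ℂ (F q χ) ∧ ∀ s : ℂ, 1 < s.re →
          HasProd (fun p : Nat.Primes =>
            (1 - χ ((p : ℕ) : ZMod q) * (lamf f p : ℂ) * ((p : ℕ) : ℂ) ^ (-s) +
              (if (p : ℕ) ∣ N then 0 else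
                χ ((p : ℕ) : ZMod q) ^ 2 * ((p : ℕ) : ℂ) ^ (-2 * s)))⁻¹) (F q χ s) := by
  have hN : 0 < N := Nat.pos_of_ne_zero (NeZero.ne N)
  have hN1 : (1 : ℝ) ≤ N := by exact_mod_cast hN
  have hH := heckeSeq_lamf hf
  have hR := hrs N k hk f ε hf
  obtain ⟨A1, hA1, d1, d2, d3⟩ := hdir N hN (lamf f) hH hR
  obtain ⟨A2, hA2, hA2'⟩ := hfe k hk N hN1 A1 hA1
  have hsum : ∀ (q : ℕ) [NeZero q] (χ : DirichletCharacter ℂ q) (s : ℂ), 1 < s.re →
      Summable (fun n : ℕ => ‖χ (n : ZMod q) * (lamf f n : ℂ) * (n : ℂ) ^ (-s)‖) := by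
    intro q _ χ s hs
    exact (d3 q χ (fun s => ∑' n : ℕ, χ (n : ZMod q) * (lamf f n : ℂ) * (n : ℂ) ^ (-s))
      (fun _ _ => rfl)).1 s hs
  classical
  have hex : ∀ (q : ℕ) (χ : DirichletCharacter ℂ q), ∃ F : ℂ → ℂ,
      (1 ≤ q → Nat.Coprime q N → χ.IsPrimitive → FE2 k N q F ∧ ∀ s : ℂ, 1 < s.re →
      F s = ∑' n : ℕ, χ (n : ZMod q) * (lamf f n : ℂ) * (n : ℂ) ^ (-s)) := by
    intro q χ
    by_cases h : 1 ≤ q ∧ Nat.Coprime q N ∧ χ.IsPrimitive
    · obtain ⟨h1, h2, h3⟩ := h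
      haveI : NeZero q := ⟨by omega⟩
      obtain ⟨F, hF⟩ := exists_twist htw hme hk hf hsum q χ h3 h2
      exact ⟨F, fun _ _ _ => hF⟩
    · exact ⟨fun _ => 0, fun h1 h2 h3 => absurd ⟨h1, h2, h3⟩ h⟩
  choose F hF using hex
  refine ⟨max A1 A2, F, le_max_of_le_left hA1, ?_, (hsel N hN (lamf f) hH hR).1, ?_⟩
  · intro q χ hq hqN hχ
    haveI : NeZero q := ⟨by omega⟩
    have hq1 : (1 : ℝ) ≤ q := by exact_mod_cast (show 1 ≤ q by omega)
    obtain ⟨hfe2, hser⟩ := hF q χ (by omega) hqN hχ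
    obtain ⟨e1, e2, e3, e4, e5, e6⟩ := d3 q χ (F q χ) hser
    have hz1 : ∀ s : ℂ, s.re = 1 → s.im ≠ 0 → F q χ s ≠ 0 :=
      hnz N hN (lamf f) hH hR q χ (F q χ) hfe2.diff hser
    have hz2 : ∀ s : ℂ, 1 ≤ s.re → 1 ≤ |s.im| → F q χ s ≠ 0 := by
      intro s h1 h2
      rcases eq_or_lt_of_le h1 with h | h
      · refine hz1 s h.symm ?_
        intro h0
        rw [h0, abs_zero] at h2
        linarith
      · exact e2 s h
    obtain ⟨g1, g2, g3, g4⟩ := hA2' q hq1 (F q χ) hfe2 e4 hz2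
    have hAmax : 0 < max A1 A2 := lt_max_of_lt_left (by linarith)
    refine ⟨fun s _ => hfe2.diff.analyticAt s, ?_, ?_, ?_, g2, g3, ?_, ?_, ?_, ?_, ?_⟩
    · intro s h1 h2 h3
      refine (g1 s h1 h2 h3).trans ?_
      have hb : 1 ≤ (q : ℝ) * s.im := by
        calc (1 : ℝ) = 1 * 1 := (mul_one 1).symm
          _ ≤ _ := mul_le_mul hq1 h3 zero_le_one (by linarith)
      exact mul_le_mul (le_max_right _ _)
        (Real.rpow_le_rpow_of_exponent_le hb (le_max_right _ _)) (by positivity) hAmax.le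
    · intro t _
      refine le_trans ?_ (e5 (⟨2, t⟩ : ℂ) (le_refl _))
      exact inv_anti₀ (by linarith) (le_max_left _ _)
    · intro s h1 h2
      exact hz2 s h1 (h2.trans (le_abs_self _))
    · intro n hn
      interval_cases n <;> simp
    · refine Summable.of_nonneg_of_le (fun n => by positivity) (fun n => ?_) d1
      have h1 := χ.norm_le_one (n : ZMod q)
      have h2 : (0 : ℝ) ≤ ArithmeticFunction.vonMangoldt n := ArithmeticFunction.vonMangoldt_nonneg
      rw [norm_mul, norm_mul, Complex.norm_real, Complex.norm_real, Real.norm_eq_abs,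
        Real.norm_of_nonneg h2]
      refine mul_le_mul_of_nonneg_right ?_ (by positivity)
      calc ‖χ (n : ZMod q)‖ * |cS N (lamf f) n| * ArithmeticFunction.vonMangoldt n ≤
          1 * |cS N (lamf f) n| * ArithmeticFunction.vonMangoldt n := by gcongr
        _ = _ := by ring
    · refine le_trans (Summable.tsum_le_tsum (fun n => ?_) ?_ d1) (d2.trans (le_max_left _ _))
      · have h1 := χ.norm_le_one (n : ZMod q)
        have h2 : (0 : ℝ) ≤ ArithmeticFunction.vonMangoldt n := ArithmeticFunction.vonMangoldt_nonneg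
        rw [norm_mul, norm_mul, Complex.norm_real, Complex.norm_real, Real.norm_eq_abs,
          Real.norm_of_nonneg h2]
        refine mul_le_mul_of_nonneg_right ?_ (by positivity)
        calc ‖χ (n : ZMod q)‖ * |cS N (lamf f) n| * ArithmeticFunction.vonMangoldt n ≤
            1 * |cS N (lamf f) n| * ArithmeticFunction.vonMangoldt n := by gcongr
          _ = _ := by ring
      · refine Summable.of_nonneg_of_le (fun n => by positivity) (fun n => ?_) d1
        have h1 := χ.norm_le_one (n : ZMod q)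
        have h2 : (0 : ℝ) ≤ ArithmeticFunction.vonMangoldt n := ArithmeticFunction.vonMangoldt_nonneg
        rw [norm_mul, norm_mul, Complex.norm_real, Complex.norm_real, Real.norm_eq_abs,
          Real.norm_of_nonneg h2]
        refine mul_le_mul_of_nonneg_right ?_ (by positivity)
        calc ‖χ (n : ZMod q)‖ * |cS N (lamf f) n| * ArithmeticFunction.vonMangoldt n ≤
            1 * |cS N (lamf f) n| * ArithmeticFunction.vonMangoldt n := by gcongr
          _ = _ := by ring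
    · intro s h1 _
      exact e3 s h1
    · intro s h1 h2 h3 h4
      exact (g4 s h1 h2 h3 h4).trans (le_max_right _ _)
  · intro q χ hq hqN hχ
    haveI : NeZero q := ⟨by omega⟩
    obtain ⟨hfe2, hser⟩ := hF q χ hq hqN hχ
    exact ⟨hfe2.diff, (d3 q χ (F q χ) hser).2.2.2.2.2⟩


/-- everything that is needed about the family -/
theorem newf_pack {N : ℕ} [NeZero N] {k : ℤ} (hk : 1 ≤ k)
    {f : CuspForm (Gamma0 N : Subgroup (GL (Fin 2) ℝ)) k} {ε : ℝ} (hf : IsNewf N k f ε) :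
    ∃ (A : ℝ) (F : (q : ℕ) → DirichletCharacter ℂ q → ℂ → ℂ), 1 ≤ A ∧
      (∀ (q : ℕ) (χ : DirichletCharacter ℂ q), 1 ≤ q → Nat.Coprime q N → χ.IsPrimitive →
        Differentiable ℂ (F q χ) ∧ (∀ s : ℂ, 1 < s.re →
          HasProd (fun p : Nat.Primes =>
            (1 - χ ((p : ℕ) : ZMod q) * (lamf f p : ℂ) * ((p : ℕ) : ℂ) ^ (-s) +
              (if (p : ℕ) ∣ N then 0 else
                χ ((p : ℕ) : ZMod q) ^ 2 * ((p : ℕ) : ℂ) ^ (-2 * s)))⁻¹) (F q χ s)) ∧
        ∃ a : ℕ → ℂ, GoodE 2 A q (F q χ) a) ∧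
      ∃ δ K η X0 : ℝ, 0 < δ ∧ 1 ≤ K ∧ 0 < η ∧ 1 ≤ X0 ∧
      ∀ (X Y : ℕ) (T : ℝ), X0 ≤ X → K * X ≤ Y → (Y : ℝ) ≤ (X : ℝ) ^ (1 + η) →
        (Real.log X) ^ 2 ≤ T → T ≤ (X : ℝ) ^ η →
        (0.6725 + δ) * primFamM N X Y (fun q χ => (NN (F q χ) T (2 * T) : ℝ)) ≤
          primFamM N X Y (fun q χ => (Ns (F q χ) T (2 * T) : ℝ)) := by
  obtain ⟨A, F, hA, h1, h2, h3⟩ := newf_twists1 Pool.Agent.W440.TW.t_twist
    Pool.Agent.W108.TW.t_mellin Pool.Agent.W820.TW.t_fe p_dir p_nzr p_rs p_sel hk hf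
  have hN : N ≠ 0 := NeZero.ne N
  refine ⟨A, F, hA, ?_, ?_⟩
  · intro q χ hq hqN hχ
    obtain ⟨e1, e2⟩ := h3 q χ hq hqN hχ
    exact ⟨e1, e2, _, h1 q χ hq hqN hχ⟩
  · have h1' : TwE 2 A (rad N) (fun n => (cS N (lamf f) n : ℂ)) F := by
      intro q χ hq hqN hχ
      exact h1 q χ (by omega) ((coprime_rad hN q).mp hqN) hχ
    have hc : (2 : ℝ) / 2 * Rw 1.414 0 + 4 / 2 * (∫ α in (0 : ℝ)..1, α * Rw 1.414 α) < 1.3275 := by
      have := Rw_const_d2
      norm_num at this ⊢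
      exact this
    obtain ⟨κ, hκ1, hκ2⟩ := exists_between hc
    obtain ⟨K, η, X0, hK, hη, hX0, h⟩ := final_of_const_E 2 A (by norm_num) hA (rad N)
      (rad_squarefree N) _ F h1' h2 1.414 κ (by norm_num) (by linarith [Real.pi_gt_three]) hκ1
    refine ⟨1.3275 - κ, K, η, X0, by linarith, hK, hη, hX0, fun X Y T a1 a2 a3 a4 a5 => ?_⟩
    have := (h X Y T a1 a2 a3 a4 a5).1
    simp only [primFamM_rad hN] at this
    have e : (0.6725 + (1.3275 - κ) : ℝ) = 2 - κ := by norm_num; ring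
    rw [e]
    exact this

end W165.CE
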